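import Mathlib

/-! The elementary inequalities for the spiral potential.
`u = 1/t`, `v = 1/τ`, `ρ = 1/r`. -/

set_option maxHeartbeats 4000000

namespace Pool.Agent.Helper2.NC

/-- `Θ'` -/
def pth1 (u ρ a b : ℝ) : ℝ := b * ρ + a * u ^ 2
/-- `Θ''` -/
def pth2 (u ρ a b : ℝ) : ℝ := -2 * a * b * ρ ^ 2 + b ^ 2 * (ρ * u ^ 2) - 2 * a ^ 2 * u ^ 3
/-- `τ'` -/
def ptau1 (u ρ c d l l1 a b : ℝ) : ℝ := l1 * a * c + (1 - l) * (pth1 u ρ a b * d)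
/-- `τ''` -/
def ptau2 (u ρ c d l l1 l2 a b : ℝ) : ℝ :=
  (l2 * a ^ 2 + l1 * (b ^ 2 * ρ)) * c - 2 * (l1 * a) * (pth1 u ρ a b * d)
    + (1 - l) * (pth2 u ρ a b * d + pth1 u ρ a b ^ 2 * c)
/-- `ψ₀''` -/
def pU2 (K u v ρ c d l l1 l2 a b : ℝ) : ℝ :=
  - 56 * K * a ^ 2 * u ^ 9 + 7 * K * b ^ 2 * (ρ * u ^ 8)
    + ptau2 u ρ c d l l1 l2 a b * v ^ 2 - 2 * ptau1 u ρ c d l l1 a b ^ 2 * v ^ 3
/-- radial derivative -/
def pp1 (K u v c d l l1 : ℝ) : ℝ := 7 * K * u ^ 8 + l1 * c * v ^ 2 + u ^ 2 * ((1 - l) * d * v ^ 2)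
/-- angular derivative -/
def pp2 (v ρ d l : ℝ) : ℝ := ρ * ((1 - l) * d * v ^ 2)
/-- squared gradient -/
def pT2 (K u v ρ c d l l1 : ℝ) : ℝ := pp1 K u v c d l l1 ^ 2 + pp2 v ρ d l ^ 2

theorem cs (u ρ a b : ℝ) : pth1 u ρ a b ^ 2 ≤ (ρ ^ 2 + u ^ 4) * (a ^ 2 + b ^ 2) := by
  rw [pth1]
  linarith only [sq_nonneg (a * ρ - b * u ^ 2)]

theorem th2_bound {u ρ a b : ℝ} (hu : 0 ≤ u) (hρ : 0 ≤ ρ) (hρ1 : ρ ≤ 1) :
    |pth2 u ρ a b| ≤ (1 + u ^ 2 + 2 * u ^ 3) * (a ^ 2 + b ^ 2) := by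
  have hr2 : ρ ^ 2 ≤ 1 := by nlinarith
  have h1 : |-2 * a * b * ρ ^ 2| ≤ a ^ 2 + b ^ 2 := by
    rw [abs_le]
    constructor <;> nlinarith only [hr2, sq_nonneg (a - b), sq_nonneg (a + b), sq_nonneg ρ]
  have h2 : |b ^ 2 * (ρ * u ^ 2)| ≤ b ^ 2 * u ^ 2 := by
    rw [abs_of_nonneg (by positivity)]
    apply mul_le_mul_of_nonneg_left _ (by positivity)
    nlinarith [sq_nonneg u]
  have h3 : |2 * a ^ 2 * u ^ 3| = 2 * a ^ 2 * u ^ 3 := abs_of_nonneg (by positivity)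
  have h4 := abs_sub (-2 * a * b * ρ ^ 2 + b ^ 2 * (ρ * u ^ 2)) (2 * a ^ 2 * u ^ 3)
  have h5 := abs_add_le (-2 * a * b * ρ ^ 2) (b ^ 2 * (ρ * u ^ 2))
  rw [pth2]
  have h6 : 0 ≤ a ^ 2 * u ^ 2 := by positivity
  have h7 : 0 ≤ b ^ 2 * u ^ 3 := by positivity
  calc _ ≤ _ := h4
    _ ≤ (a ^ 2 + b ^ 2) + b ^ 2 * u ^ 2 + 2 * a ^ 2 * u ^ 3 := by linarith
    _ ≤ _ := by linarith only [h6, h7]

/-- basic lower bound of the gradient -/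
theorem T2_lower (K u v ρ c d l l1 : ℝ) :
    ρ ^ 2 * (7 * K * u ^ 8 + l1 * c * v ^ 2) ^ 2 ≤ (ρ ^ 2 + u ^ 4) * pT2 K u v ρ c d l l1 := by
  rw [pT2, pp1, pp2]
  linarith only [sq_nonneg (u ^ 2 * (7 * K * u ^ 8 + l1 * c * v ^ 2 + u ^ 2 * ((1 - l) * d * v ^ 2))
    + ρ * (ρ * ((1 - l) * d * v ^ 2)))]

theorem T2_lower2 (K u v ρ c d l l1 : ℝ) :
    (ρ * ((1 - l) * d * v ^ 2)) ^ 2 ≤ pT2 K u v ρ c d l l1 := by
  rw [pT2, pp2]
  nlinarith [sq_nonneg (pp1 K u v c d l l1)]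

/-- region `t < 1/2`. -/
theorem caseI {K u v ρ c d τ a b : ℝ} (hK : 1 ≤ K) (hu : 2 < u) (hρ : 2 / 3 < ρ) (hρ1 : ρ < 1)
    (hcd : c ^ 2 + d ^ 2 = 1) (hτ : τ = 1 - c) (hτ0 : 0 < τ) (hv : τ * v = 1) :
    -(12 * pT2 K u v ρ c d 0 0 * (a ^ 2 + b ^ 2)) ≤ pU2 K u v ρ c d 0 0 0 a b ∧
      0 < pT2 K u v ρ c d 0 0 := by
  set S := a ^ 2 + b ^ 2 with hS
  have hS0 : 0 ≤ S := by positivity
  set T := pT2 K u v ρ c d 0 0 with hT
  have hv0 : 0 < v := by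
    by_contra h
    have : τ * v ≤ 0 := mul_nonpos_of_nonneg_of_nonpos hτ0.le (not_lt.1 h)
    linarith
  have hu0 : 0 < u := by linarith
  have hu2 : 4 < u ^ 2 := by nlinarith only [hu]
  have hu4 : 16 < u ^ 4 := by nlinarith only [hu2]
  have hd2 : d ^ 2 = τ * (2 - τ) := by rw [hτ]; linear_combination hcd
  have hd1 : |d| ≤ 1 := by
    rw [abs_le]; constructor <;> nlinarith only [hcd, hρ, hρ1, sq_nonneg c]
  -- T ≥ 16 K² u^12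
  have hT1 : 16 * K ^ 2 * u ^ 12 ≤ T := by
    have h := T2_lower K u v ρ c d 0 0
    rw [← hT] at h
    have hT0 : 0 ≤ T := by rw [hT, pT2]; positivity
    have h1 : (ρ ^ 2 + u ^ 4) * T ≤ (17 / 16 * u ^ 4) * T := by
      apply mul_le_mul_of_nonneg_right _ hT0
      nlinarith only [hρ1, hu2, hu, hρ]
    have h2 : 4 / 9 * (7 * K * u ^ 8) ^ 2 ≤ ρ ^ 2 * (7 * K * u ^ 8 + 0 * c * v ^ 2) ^ 2 := by
      have : (7 * K * u ^ 8 + 0 * c * v ^ 2) ^ 2 = (7 * K * u ^ 8) ^ 2 := by ring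
      rw [this]
      apply mul_le_mul_of_nonneg_right _ (sq_nonneg _)
      nlinarith only [hρ]
    have h3 : 4 / 9 * (7 * K * u ^ 8) ^ 2 ≤ 17 / 16 * u ^ 4 * T := by linarith
    have h4 : 4 / 9 * (7 * K * u ^ 8) ^ 2 = u ^ 4 * (196 / 9 * K ^ 2 * u ^ 12) := by ring
    rw [h4] at h3
    have h5 : u ^ 4 * (196 / 9 * K ^ 2 * u ^ 12) ≤ u ^ 4 * (17 / 16 * T) := by linarith only [h, h1, h2]
    have h6 := le_of_mul_le_mul_left h5 (by positivity)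
    have h7 : 0 ≤ K ^ 2 * u ^ 12 := by positivity
    linarith only [hT0, h6]
  have hT0 : 0 < T := lt_of_lt_of_le (by positivity) hT1
  refine ⟨?_, hT0⟩
  -- expansion of U2
  have hU : pU2 K u v ρ c d 0 0 0 a b = - 56 * K * a ^ 2 * u ^ 9 + 7 * K * b ^ 2 * (ρ * u ^ 8)
      + (pth2 u ρ a b * d + pth1 u ρ a b ^ 2 * (τ - 3)) * v ^ 2 := by
    rw [pU2, ptau2, ptau1]
    have e : v ^ 3 * d ^ 2 = (2 - τ) * v ^ 2 := by
      rw [hd2]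
      have : v ^ 3 * (τ * (2 - τ)) = (τ * v) * ((2 - τ) * v ^ 2) := by ring
      rw [this, hv, one_mul]
    have hc : c = 1 - τ := by linarith
    have e2 : 2 * (0 * a * c + (1 - 0) * (pth1 u ρ a b * d)) ^ 2 * v ^ 3 =
        2 * pth1 u ρ a b ^ 2 * (v ^ 3 * d ^ 2) := by ring
    rw [e2, e, hc]
    ring
  rw [hU]
  have hθ1 := cs u ρ a b
  have hθ2 := th2_bound (a := a) (b := b) hu0.le (by linarith : 0 ≤ ρ) hρ1.le
  rw [← hS] at hθ1 hθ2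
  have hA : pth2 u ρ a b * d ≥ -((1 + u ^ 2 + 2 * u ^ 3) * S) := by
    have h1 : |pth2 u ρ a b * d| ≤ (1 + u ^ 2 + 2 * u ^ 3) * S := by
      rw [abs_mul]
      calc _ ≤ |pth2 u ρ a b| * 1 := mul_le_mul_of_nonneg_left hd1 (abs_nonneg _)
        _ ≤ _ := by rw [mul_one]; exact hθ2
    exact (abs_le.1 h1).1
  have hB : pth1 u ρ a b ^ 2 * (τ - 3) ≥ -(3 * ((1 + u ^ 4) * S)) := by
    have h1 : pth1 u ρ a b ^ 2 ≤ (1 + u ^ 4) * S := by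
      apply hθ1.trans
      apply mul_le_mul_of_nonneg_right _ hS0
      nlinarith only [hρ1, hρ]
    nlinarith only [h1, hτ0, sq_nonneg (pth1 u ρ a b)]
  have hC : (1 + u ^ 2 + 2 * u ^ 3) * S + 3 * ((1 + u ^ 4) * S) ≤ 5 * u ^ 4 * S := by
    have e1 : 2 * u ^ 3 ≤ u ^ 4 := by
      have : u ^ 4 = u ^ 3 * u := by ring
      rw [this]
      have := mul_le_mul_of_nonneg_left hu.le (pow_pos hu0 3).le
      linarith
    have e2 : 4 * u ^ 2 ≤ u ^ 4 := by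
      have : u ^ 4 = u ^ 2 * u ^ 2 := by ring
      rw [this]
      exact mul_le_mul_of_nonneg_right hu2.le (by positivity)
    have : 1 + u ^ 2 + 2 * u ^ 3 + 3 * (1 + u ^ 4) ≤ 5 * u ^ 4 := by
      linarith
    calc (1 + u ^ 2 + 2 * u ^ 3) * S + 3 * ((1 + u ^ 4) * S)
        = (1 + u ^ 2 + 2 * u ^ 3 + 3 * (1 + u ^ 4)) * S := by ring
      _ ≤ _ := mul_le_mul_of_nonneg_right this hS0
  have hD : (pth2 u ρ a b * d + pth1 u ρ a b ^ 2 * (τ - 3)) * v ^ 2 ≥ -(5 * u ^ 4 * S * v ^ 2) := by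
    have : pth2 u ρ a b * d + pth1 u ρ a b ^ 2 * (τ - 3) ≥ -(5 * u ^ 4 * S) := by linarith
    nlinarith only [hA, hB, hC, sq_nonneg v]
  -- first term
  have hE : 56 * K * a ^ 2 * u ^ 9 ≤ 7 / 16 * T * S := by
    have h1 : 56 * K * u ^ 9 ≤ 7 * K ^ 2 * u ^ 12 := by
      have h2 : 8 < u ^ 3 := by nlinarith only [hu2, hu]
      have h3 : K * u ^ 9 * 8 ≤ K * u ^ 9 * u ^ 3 := mul_le_mul_of_nonneg_left h2.le (by positivity)
      have h4 : K * u ^ 12 ≤ K ^ 2 * u ^ 12 := by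
        apply mul_le_mul_of_nonneg_right _ (by positivity); nlinarith only [hK]
      have h5 : K * u ^ 9 * u ^ 3 = K * u ^ 12 := by ring
      linarith
    have h2 : 56 * K * u ^ 9 ≤ 7 / 16 * T := by linarith
    have h3 : a ^ 2 ≤ S := by rw [hS]; linarith only [sq_nonneg b]
    calc 56 * K * a ^ 2 * u ^ 9 = (56 * K * u ^ 9) * a ^ 2 := by ring
      _ ≤ (7 / 16 * T) * S := mul_le_mul h2 h3 (by positivity) (by positivity)
  have hF : 5 * u ^ 4 * v ^ 2 ≤ 45 / 4 * T := by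
    rcases le_or_gt (τ * u ^ 4) 1 with h | h
    · -- T ≥ 4/9 v^3
      have h1 := T2_lower2 K u v ρ c d 0 0
      rw [← hT] at h1
      have h2 : (ρ * ((1 - 0) * d * v ^ 2)) ^ 2 = ρ ^ 2 * ((2 - τ) * v ^ 3) := by
        have : (ρ * ((1 - 0) * d * v ^ 2)) ^ 2 = ρ ^ 2 * (d ^ 2 * v * v ^ 3) := by ring
        rw [this, hd2]
        have : τ * (2 - τ) * v * v ^ 3 = (τ * v) * ((2 - τ) * v ^ 3) := by ring
        rw [this, hv, one_mul]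
      rw [h2] at h1
      have hτ1 : τ ≤ 1 := by nlinarith only [h, hρ, hρ1, hτ0, hu4]
      have h3 : 4 / 9 * v ^ 3 ≤ ρ ^ 2 * ((2 - τ) * v ^ 3) := by
        have h4 : 4 / 9 ≤ ρ ^ 2 := by nlinarith only [hρ]
        have h5 : v ^ 3 ≤ (2 - τ) * v ^ 3 := by nlinarith only [hv, hρ, hρ1, hu4, hv0, h, pow_pos hv0 3]
        calc 4 / 9 * v ^ 3 ≤ ρ ^ 2 * v ^ 3 := mul_le_mul_of_nonneg_right h4 (by positivity)
          _ ≤ _ := mul_le_mul_of_nonneg_left h5 (by positivity)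
      have h4 : u ^ 4 * v ^ 2 ≤ v ^ 3 := by
        have : u ^ 4 * v ^ 2 = (τ * v) * (u ^ 4 * v ^ 2) := by rw [hv, one_mul]
        have e : (τ * v) * (u ^ 4 * v ^ 2) = (τ * u ^ 4) * v ^ 3 := by ring
        rw [this, e]
        have : 0 < v ^ 3 := by positivity
        nlinarith
      linarith
    · have h1 : v < u ^ 4 := by
        have : τ * v < τ * u ^ 4 := by rw [hv]; exact h
        exact lt_of_mul_lt_mul_left this hτ0.le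
      have h2 : v ^ 2 ≤ (u ^ 4) ^ 2 := pow_le_pow_left₀ hv0.le h1.le 2
      have h3 : u ^ 4 * v ^ 2 ≤ u ^ 4 * (u ^ 4) ^ 2 := mul_le_mul_of_nonneg_left h2 (by positivity)
      have h4 : u ^ 4 * (u ^ 4) ^ 2 = u ^ 12 := by ring
      have h5 : u ^ 12 ≤ K ^ 2 * u ^ 12 := by
        have : 1 ≤ K ^ 2 := by nlinarith only [hK]
        nlinarith only [hρ, hρ1, this, hu0, pow_pos hu0 12]
      rw [h4] at h3
      linarith only [hT1, hT0, h3, h5]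
  have hG : 5 * u ^ 4 * S * v ^ 2 ≤ 45 / 4 * T * S := by
    calc 5 * u ^ 4 * S * v ^ 2 = (5 * u ^ 4 * v ^ 2) * S := by ring
      _ ≤ _ := mul_le_mul_of_nonneg_right hF hS0
  have hH : 0 ≤ 7 * K * b ^ 2 * (ρ * u ^ 8) := by
    have : 0 ≤ ρ := by linarith only [hρ, hρ1]
    positivity
  have hTS : 0 ≤ T * S := mul_nonneg hT0.le hS0
  linarith

end Pool.Agent.Helper2.NC
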