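import Pool.Agent.Helper2.NC.Ineq

/-! The elementary inequalities for the spiral potential, region `1/2 ≤ t ≤ 3/4` and `t > 3/4`. -/

set_option maxHeartbeats 4000000

namespace Pool.Agent.Helper2.NC

/-- region `t > 3/4`. -/
theorem caseIII {K u ρ c d a b : ℝ} (hK : 1 ≤ K) (hu : 1 / 4 ≤ u) (hρ : 0 < ρ) :
    -(20000 * pT2 K u 1 ρ c d 1 0 * (a ^ 2 + b ^ 2)) ≤ pU2 K u 1 ρ c d 1 0 0 a b ∧
      0 < pT2 K u 1 ρ c d 1 0 := by
  have hT : pT2 K u 1 ρ c d 1 0 = 49 * K ^ 2 * u ^ 16 := by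
    rw [pT2, pp1, pp2]; ring
  have hU : pU2 K u 1 ρ c d 1 0 0 a b =
      - 56 * K * a ^ 2 * u ^ 9 + 7 * K * b ^ 2 * (ρ * u ^ 8) := by
    rw [pU2, ptau2, ptau1]; ring
  have hu0 : 0 < u := by linarith
  rw [hT, hU]
  refine ⟨?_, by positivity⟩
  have h7 : (1 / 4 : ℝ) ^ 7 ≤ u ^ 7 := pow_le_pow_left₀ (by norm_num) hu 7
  have h1 : 56 * K * u ^ 9 ≤ 20000 * (49 * K ^ 2 * u ^ 16) := by
    have e : 20000 * (49 * K ^ 2 * u ^ 16) = (980000 * K * u ^ 7) * (K * u ^ 9) := by ring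
    have e2 : 56 * K * u ^ 9 = 56 * (K * u ^ 9) := by ring
    rw [e, e2]
    apply mul_le_mul_of_nonneg_right _ (by positivity)
    have : 1 * (1 / 4 : ℝ) ^ 7 ≤ K * u ^ 7 := mul_le_mul hK h7 (by positivity) (by linarith)
    norm_num at this ⊢
    linarith
  have h2 : 0 ≤ 7 * K * b ^ 2 * (ρ * u ^ 8) := by positivity
  have h3 : 56 * K * u ^ 9 * a ^ 2 ≤ 20000 * (49 * K ^ 2 * u ^ 16) * (a ^ 2 + b ^ 2) := by
    apply mul_le_mul h1 _ (by positivity) (by positivity)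
    linarith [sq_nonneg b]
  linarith

/-- auxiliary bounds in the middle region -/
theorem caseII_aux {K u v ρ c d l l1 : ℝ} (hK : 1 ≤ K)
    (hu : 4 / 3 ≤ u) (hu2 : u ≤ 2) (hρ : 1 / 2 ≤ ρ) (hρ1 : ρ ≤ 1) :
    69 * K ≤ 7 * K * u ^ 8 ∧
    (7 * K * u ^ 8 + l1 * c * v ^ 2) ^ 2 ≤ 68 * pT2 K u v ρ c d l l1 ∧
    ((1 - l) * d * v ^ 2) ^ 2 ≤ 4 * pT2 K u v ρ c d l l1 := by
  have hTnn : 0 ≤ pT2 K u v ρ c d l l1 := by rw [pT2]; positivity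
  have hu0 : 0 < u := by linarith
  have hρ0 : 0 < ρ := by linarith
  have hu4 : u ^ 4 ≤ 16 := by
    have := pow_le_pow_left₀ hu0.le hu2 4; norm_num at this; exact this
  have hu8 : 69 / 7 ≤ u ^ 8 := by
    have h := pow_le_pow_left₀ (by norm_num : (0 : ℝ) ≤ 4 / 3) hu 8
    have h2 : (69 / 7 : ℝ) ≤ (4 / 3) ^ 8 := by norm_num
    linarith
  have hρ2 : ρ ^ 2 ≤ 1 := pow_le_one₀ hρ0.le hρ1
  have hρ2' : 1 / 4 ≤ ρ ^ 2 := by
    have := pow_le_pow_left₀ (by norm_num : (0 : ℝ) ≤ 1 / 2) hρ 2; norm_num at this ⊢; exact this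
  have hXK : 7 * K * (69 / 7) ≤ 7 * K * u ^ 8 := mul_le_mul_of_nonneg_left hu8 (by positivity)
  refine ⟨by linarith, ?_, ?_⟩
  · have hlow := T2_lower K u v ρ c d l l1
    have h1 : (ρ ^ 2 + u ^ 4) * pT2 K u v ρ c d l l1 ≤ 17 * pT2 K u v ρ c d l l1 :=
      mul_le_mul_of_nonneg_right (by linarith) hTnn
    have h2 : 1 / 4 * (7 * K * u ^ 8 + l1 * c * v ^ 2) ^ 2 ≤
        ρ ^ 2 * (7 * K * u ^ 8 + l1 * c * v ^ 2) ^ 2 :=
      mul_le_mul_of_nonneg_right hρ2' (sq_nonneg _)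
    linarith
  · have h1 := T2_lower2 K u v ρ c d l l1
    have h2 : (ρ * ((1 - l) * d * v ^ 2)) ^ 2 = ρ ^ 2 * ((1 - l) * d * v ^ 2) ^ 2 := by ring
    have h3 : 1 / 4 * ((1 - l) * d * v ^ 2) ^ 2 ≤ ρ ^ 2 * ((1 - l) * d * v ^ 2) ^ 2 :=
      mul_le_mul_of_nonneg_right hρ2' (sq_nonneg _)
    linarith

/-- bounds of the derivatives of `Θ` and of `τ'` in the middle region -/
theorem caseII_th {u ρ c d l l1 a b : ℝ}
    (hu : 4 / 3 ≤ u) (hu2 : u ≤ 2) (hρ : 1 / 2 ≤ ρ) (hρ1 : ρ ≤ 1)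
    (hcd : c ^ 2 + d ^ 2 = 1) (hl0 : 0 ≤ l) (hl1 : l ≤ 1) :
    pth1 u ρ a b ^ 2 ≤ 17 * (a ^ 2 + b ^ 2) ∧ |pth2 u ρ a b| ≤ 21 * (a ^ 2 + b ^ 2) ∧
    |2 * (l1 * a) * (pth1 u ρ a b * d)| ≤ (l1 ^ 2 + 17 * d ^ 2) * (a ^ 2 + b ^ 2) ∧
    ptau1 u ρ c d l l1 a b ^ 2 ≤ 2 * (l1 ^ 2 + 17 * d ^ 2) * (a ^ 2 + b ^ 2) := by
  have hS0 : 0 ≤ a ^ 2 + b ^ 2 := by positivity
  have ha2 : a ^ 2 ≤ a ^ 2 + b ^ 2 := by linarith [sq_nonneg b]
  have hu0 : 0 < u := by linarith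
  have hρ0 : 0 < ρ := by linarith
  have hu4 : u ^ 4 ≤ 16 := by
    have := pow_le_pow_left₀ hu0.le hu2 4; norm_num at this; exact this
  have hu3 : u ^ 3 ≤ 8 := by
    have := pow_le_pow_left₀ hu0.le hu2 3; norm_num at this; exact this
  have hu22 : u ^ 2 ≤ 4 := by
    have := pow_le_pow_left₀ hu0.le hu2 2; norm_num at this; exact this
  have hρ2 : ρ ^ 2 ≤ 1 := pow_le_one₀ hρ0.le hρ1
  have hθ1 : pth1 u ρ a b ^ 2 ≤ 17 * (a ^ 2 + b ^ 2) := by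
    apply (cs u ρ a b).trans
    apply mul_le_mul_of_nonneg_right _ hS0
    linarith
  have hθ2 : |pth2 u ρ a b| ≤ 21 * (a ^ 2 + b ^ 2) := by
    apply (th2_bound hu0.le hρ0.le hρ1).trans
    apply mul_le_mul_of_nonneg_right _ hS0
    linarith
  have h3 : (pth1 u ρ a b * d) ^ 2 ≤ (17 * (a ^ 2 + b ^ 2)) * d ^ 2 := by
    rw [mul_pow]; exact mul_le_mul_of_nonneg_right hθ1 (sq_nonneg _)
  refine ⟨hθ1, hθ2, ?_, ?_⟩
  · have h1 : |2 * (l1 * a) * (pth1 u ρ a b * d)| ≤ (l1 * a) ^ 2 + (pth1 u ρ a b * d) ^ 2 := by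
      have g1 := two_mul_le_add_sq (l1 * a) (pth1 u ρ a b * d)
      have g2 := two_mul_le_add_sq (-(l1 * a)) (pth1 u ρ a b * d)
      rw [neg_sq] at g2
      rw [abs_le]
      constructor <;> linarith
    have h2 : (l1 * a) ^ 2 ≤ l1 ^ 2 * (a ^ 2 + b ^ 2) := by
      rw [mul_pow]; exact mul_le_mul_of_nonneg_left ha2 (sq_nonneg _)
    linarith
  · have h1 : ptau1 u ρ c d l l1 a b ^ 2 ≤
        2 * (l1 * a * c) ^ 2 + 2 * ((1 - l) * (pth1 u ρ a b * d)) ^ 2 := by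
      rw [ptau1]
      have := add_sq_le (a := l1 * a * c) (b := (1 - l) * (pth1 u ρ a b * d))
      linarith
    have h2 : (l1 * a * c) ^ 2 ≤ l1 ^ 2 * (a ^ 2 + b ^ 2) := by
      have : (l1 * a * c) ^ 2 = l1 ^ 2 * (a ^ 2 * c ^ 2) := by ring
      rw [this]
      apply mul_le_mul_of_nonneg_left _ (sq_nonneg _)
      have hc : c ^ 2 ≤ 1 := by linarith [sq_nonneg d]
      have : a ^ 2 * c ^ 2 ≤ a ^ 2 * 1 := mul_le_mul_of_nonneg_left hc (sq_nonneg _)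
      linarith
    have h4 : ((1 - l) * (pth1 u ρ a b * d)) ^ 2 ≤ (17 * (a ^ 2 + b ^ 2)) * d ^ 2 := by
      have : ((1 - l) * (pth1 u ρ a b * d)) ^ 2 =
        (1 - l) ^ 2 * (pth1 u ρ a b * d) ^ 2 := by ring
      rw [this]
      have h4 : (1 - l) ^ 2 ≤ 1 := pow_le_one₀ (by linarith) (by linarith)
      have h6 : (1 - l) ^ 2 * (pth1 u ρ a b * d) ^ 2 ≤ 1 * (pth1 u ρ a b * d) ^ 2 :=
        mul_le_mul_of_nonneg_right h4 (sq_nonneg _)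
      linarith
    linarith

/-- the first two terms -/
theorem caseII_first {K u ρ a b : ℝ} (hK : 1 ≤ K)
    (hu : 4 / 3 ≤ u) (hu2 : u ≤ 2) (hρ : 1 / 2 ≤ ρ) :
    -(28672 * K * (a ^ 2 + b ^ 2)) ≤ - 56 * K * a ^ 2 * u ^ 9 + 7 * K * b ^ 2 * (ρ * u ^ 8) := by
  have hu0 : 0 < u := by linarith
  have hρ0 : 0 < ρ := by linarith
  have hu9 : u ^ 9 ≤ 512 := by
    have := pow_le_pow_left₀ hu0.le hu2 9; norm_num at this; exact this
  have h1 : 0 ≤ 7 * K * b ^ 2 * (ρ * u ^ 8) := by positivity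
  have h2 : 56 * K * a ^ 2 * u ^ 9 ≤ 56 * K * (a ^ 2 + b ^ 2) * 512 := by
    apply mul_le_mul _ hu9 (by positivity) (by positivity)
    apply mul_le_mul_of_nonneg_left _ (by positivity)
    linarith [sq_nonneg b]
  linarith

theorem l2_bound {B K l2 a b c : ℝ} (hKB : B ≤ K) (hK0 : 0 < K) (hl2B : |l2| ≤ B) (hc1 : |c| ≤ 1) :
    |l2 * a ^ 2 * c| ≤ K * (a ^ 2 + b ^ 2) := by
  rw [abs_mul, abs_mul, abs_of_nonneg (sq_nonneg a)]
  calc |l2| * a ^ 2 * |c| ≤ (K * (a ^ 2 + b ^ 2)) * 1 := by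
        apply mul_le_mul _ hc1 (abs_nonneg _) (by positivity)
        exact mul_le_mul (hl2B.trans hKB) (by linarith [sq_nonneg b]) (sq_nonneg _) hK0.le
    _ = _ := by ring

theorem l1_bound {B K l1 a b c ρ : ℝ} (hKB : B ≤ K) (hK0 : 0 < K) (hl10 : 0 ≤ l1) (hl1B : l1 ≤ B)
    (hc1 : |c| ≤ 1) (hρ0 : 0 ≤ ρ) (hρ1 : ρ ≤ 1) :
    |l1 * (b ^ 2 * ρ) * c| ≤ K * (a ^ 2 + b ^ 2) := by
  rw [abs_mul, abs_mul, abs_of_nonneg hl10, abs_of_nonneg (by positivity : 0 ≤ b ^ 2 * ρ)]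
  calc l1 * (b ^ 2 * ρ) * |c| ≤ (K * (a ^ 2 + b ^ 2)) * 1 := by
        apply mul_le_mul _ hc1 (abs_nonneg _) (by positivity)
        apply mul_le_mul (hl1B.trans hKB) _ (by positivity) hK0.le
        have : b ^ 2 * ρ ≤ b ^ 2 * 1 := mul_le_mul_of_nonneg_left hρ1 (sq_nonneg _)
        linarith [sq_nonneg a]
    _ = _ := by ring

/-- middle region, `τ ≥ 1/2`. -/
theorem caseIIa {K B u v ρ c d τ l l1 l2 a b : ℝ} (hK : 1 ≤ K) (hKB : B ≤ K) 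
    (hu : 4 / 3 ≤ u) (hu2 : u ≤ 2) (hρ : 1 / 2 ≤ ρ) (hρ1 : ρ ≤ 1)
    (hcd : c ^ 2 + d ^ 2 = 1) (hτ : τ = 1 - (1 - l) * c) (hv : τ * v = 1)
    (hl0 : 0 ≤ l) (hl1 : l ≤ 1) (hl10 : 0 ≤ l1) (hl1B : l1 ≤ B) (hl2B : |l2| ≤ B)
    (hcase : 1 / 2 ≤ τ) (hv0 : 0 < v) :
    -(20000 * pT2 K u v ρ c d l l1 * (a ^ 2 + b ^ 2))
      ≤ pU2 K u v ρ c d l l1 l2 a b ∧ 0 < pT2 K u v ρ c d l l1 := by
  obtain ⟨hXK, hT68, he4⟩ := caseII_aux (v := v) (c := c) (d := d) (l := l) (l1 := l1)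
    hK hu hu2 hρ hρ1
  obtain ⟨hθ1, hθ2, hcross, htau1⟩ := caseII_th (l1 := l1) (a := a) (b := b)
    hu hu2 hρ hρ1 hcd hl0 hl1
  have hfirst := caseII_first (a := a) (b := b) hK hu hu2 hρ
  have hc1 : |c| ≤ 1 := (sq_le_one_iff_abs_le_one c).1 (by linarith [sq_nonneg d])
  have hd1 : |d| ≤ 1 := (sq_le_one_iff_abs_le_one d).1 (by linarith [sq_nonneg c])
  have hd2 : d ^ 2 ≤ 1 := by linarith [sq_nonneg c]
  have hK0 : 0 < K := by linarith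
  have hρ0 : 0 < ρ := by linarith
  have hS0 : 0 ≤ a ^ 2 + b ^ 2 := by positivity
  have ha2 : a ^ 2 ≤ a ^ 2 + b ^ 2 := by linarith [sq_nonneg b]
  have hv2 : v ≤ 2 := by
    by_contra h
    have h1 : τ * 2 < τ * v := mul_lt_mul_of_pos_left (not_le.1 h) (by linarith)
    linarith
  have hK2 : K ≤ K ^ 2 := by
    have : K * 1 ≤ K * K := mul_le_mul_of_nonneg_left hK hK0.le
    rw [sq]; linarith
  have h1K : 1 ≤ K ^ 2 := by linarith
  generalize hT : pT2 K u v ρ c d l l1 = T at *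
  generalize hX : 7 * K * u ^ 8 = X at *
  have hΨX : X / 2 ≤ X + l1 * c * v ^ 2 := by
    rcases le_or_gt 0 c with h | h
    · have : 0 ≤ l1 * c * v ^ 2 := by positivity
      have : 0 ≤ X := by linarith
      linarith
    · have hτ1 : 1 ≤ τ := by
        have : (1 - l) * c ≤ 0 := mul_nonpos_of_nonneg_of_nonpos (by linarith) h.le
        linarith
      have hv1 : v ≤ 1 := by
        by_contra h'
        have h1 : τ * 1 < τ * v := mul_lt_mul_of_pos_left (not_le.1 h') (by linarith)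
        linarith
      have h1 : v ^ 2 ≤ 1 := pow_le_one₀ hv0.le hv1
      have hcn : -c ≤ 1 := by have := (abs_le.1 hc1).1; linarith
      have h2 : l1 * (-c) ≤ K * 1 := mul_le_mul (hl1B.trans hKB) hcn (by linarith) hK0.le
      have h3 : (l1 * (-c)) * v ^ 2 ≤ (K * 1) * 1 :=
        mul_le_mul h2 h1 (sq_nonneg _) (by linarith)
      linarith
  have hTK : 17 * K ^ 2 ≤ T := by
    have h1 : 34 * K ≤ X + l1 * c * v ^ 2 := by linarith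
    have h2 : (34 * K) ^ 2 ≤ (X + l1 * c * v ^ 2) ^ 2 := pow_le_pow_left₀ (by positivity) h1 2
    have h3 : (34 * K) ^ 2 = 1156 * K ^ 2 := by ring
    linarith
  have hTpos : 0 < T := lt_of_lt_of_le (by positivity) hTK
  refine ⟨?_, hTpos⟩
  have hl1K : l1 ^ 2 ≤ K ^ 2 := pow_le_pow_left₀ hl10 (hl1B.trans hKB) 2
  have hL : l1 ^ 2 + 17 * d ^ 2 ≤ 18 * K ^ 2 := by linarith
  have hv22 : v ^ 2 ≤ 4 := by
    have := pow_le_pow_left₀ hv0.le hv2 2; norm_num at this; exact this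
  have hv3 : v ^ 3 ≤ 8 := by
    have := pow_le_pow_left₀ hv0.le hv2 3; norm_num at this; exact this
  have hl2b := l2_bound (a := a) (b := b) hKB hK0 hl2B hc1
  have hl1b := l1_bound (a := a) (b := b) hKB hK0 hl10 hl1B hc1 hρ0.le hρ1
  generalize hS : a ^ 2 + b ^ 2 = S at *
  have hA : 2 * ptau1 u ρ c d l l1 a b ^ 2 * v ^ 3 ≤ 576 * K ^ 2 * S := by
    have h1 : ptau1 u ρ c d l l1 a b ^ 2 ≤ 36 * K ^ 2 * S := by
      apply htau1.trans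
      apply mul_le_mul_of_nonneg_right _ hS0
      linarith
    calc 2 * ptau1 u ρ c d l l1 a b ^ 2 * v ^ 3 ≤ (2 * (36 * K ^ 2 * S)) * 8 := by
          apply mul_le_mul _ hv3 (by positivity) (by positivity)
          linarith
      _ = _ := by ring
  have hKS : K * S ≤ K ^ 2 * S := mul_le_mul_of_nonneg_right hK2 hS0
  have hSK : S ≤ K ^ 2 * S := by
    have := mul_le_mul_of_nonneg_right h1K hS0
    linarith
  have hB : -(60 * K ^ 2 * S) ≤ ptau2 u ρ c d l l1 l2 a b := by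
    rw [ptau2]
    have t1 := (abs_le.1 hl2b).1
    have t2 := (abs_le.1 hl1b).1
    have t3 : 2 * (l1 * a) * (pth1 u ρ a b * d) ≤ 18 * K ^ 2 * S := by
      have h1 := (abs_le.1 hcross).2
      have h2 : (l1 ^ 2 + 17 * d ^ 2) * S ≤ 18 * K ^ 2 * S := mul_le_mul_of_nonneg_right hL hS0
      linarith
    have t4 : -(38 * S) ≤ (1 - l) * (pth2 u ρ a b * d + pth1 u ρ a b ^ 2 * c) := by
      have h1 : |(1 - l) * (pth2 u ρ a b * d + pth1 u ρ a b ^ 2 * c)| ≤ 38 * S := by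
        rw [abs_mul, abs_of_nonneg (by linarith : 0 ≤ 1 - l)]
        have h2 : |pth2 u ρ a b * d + pth1 u ρ a b ^ 2 * c| ≤ 38 * S := by
          apply (abs_add_le _ _).trans
          rw [abs_mul, abs_mul, abs_of_nonneg (sq_nonneg (pth1 u ρ a b))]
          have h3 : |pth2 u ρ a b| * |d| ≤ (21 * S) * 1 :=
            mul_le_mul hθ2 hd1 (abs_nonneg _) (by positivity)
          have h4 : pth1 u ρ a b ^ 2 * |c| ≤ (17 * S) * 1 :=
            mul_le_mul hθ1 hc1 (abs_nonneg _) (by positivity)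
          linarith
        have h5 : (1 - l) * |pth2 u ρ a b * d + pth1 u ρ a b ^ 2 * c| ≤ 1 * (38 * S) :=
          mul_le_mul (by linarith) h2 (abs_nonneg _) (by norm_num)
        linarith
      exact (abs_le.1 h1).1
    have t5 : (l2 * a ^ 2 + l1 * (b ^ 2 * ρ)) * c = l2 * a ^ 2 * c + l1 * (b ^ 2 * ρ) * c := by
      ring
    rw [t5]
    linarith
  have hC : -(240 * K ^ 2 * S) ≤ ptau2 u ρ c d l l1 l2 a b * v ^ 2 := by
    have h2 : -(60 * K ^ 2 * S) * v ^ 2 ≤ ptau2 u ρ c d l l1 l2 a b * v ^ 2 :=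
      mul_le_mul_of_nonneg_right hB (sq_nonneg v)
    have h3 : 60 * K ^ 2 * S * v ^ 2 ≤ 60 * K ^ 2 * S * 4 :=
      mul_le_mul_of_nonneg_left hv22 (by positivity)
    linarith
  rw [pU2]
  have hE : 30000 * K ^ 2 * S ≤ 20000 * T * S := by
    apply mul_le_mul_of_nonneg_right _ hS0; linarith
  linarith

/-- middle region, `τ < 1/2`. -/
theorem caseIIb {K B g0 u v ρ c d τ l l1 l2 a b : ℝ} (hK : 1 ≤ K) (hKB : B ≤ K)
    (hg0 : 0 < g0)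
    (hu : 4 / 3 ≤ u) (hu2 : u ≤ 2) (hρ : 1 / 2 ≤ ρ) (hρ1 : ρ ≤ 1)
    (hcd : c ^ 2 + d ^ 2 = 1) (hτ : τ = 1 - (1 - l) * c) (hτ0 : 0 < τ) (hv : τ * v = 1)
    (hl0 : 0 ≤ l) (hl1 : l ≤ 1) (hl10 : 0 ≤ l1) (hl2B : |l2| ≤ B)
    (hl2 : l2 < 0 → g0 ≤ l) (hcase : τ < 1 / 2) :
    -((20000 + 1 / g0 ^ 2) * pT2 K u v ρ c d l l1 * (a ^ 2 + b ^ 2))
      ≤ pU2 K u v ρ c d l l1 l2 a b ∧ 0 < pT2 K u v ρ c d l l1 := by
  obtain ⟨hXK, hT68, he4⟩ := caseII_aux (v := v) (c := c) (d := d) (l := l) (l1 := l1)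
    hK hu hu2 hρ hρ1
  obtain ⟨hθ1, hθ2, hcross, htau1⟩ := caseII_th (l1 := l1) (a := a) (b := b)
    hu hu2 hρ hρ1 hcd hl0 hl1
  have hfirst := caseII_first (a := a) (b := b) hK hu hu2 hρ
  have hc1 : |c| ≤ 1 := (sq_le_one_iff_abs_le_one c).1 (by linarith [sq_nonneg d])
  have hcle : c ≤ 1 := (abs_le.1 hc1).2
  have hK0 : 0 < K := by linarith
  have hρ0 : 0 < ρ := by linarith
  have hS0 : 0 ≤ a ^ 2 + b ^ 2 := by positivity
  have hTnn : 0 ≤ pT2 K u v ρ c d l l1 := by rw [pT2]; positivity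
  have hl2b := l2_bound (a := a) (b := b) hKB hK0 hl2B hc1
  have hlc : 1 / 2 < (1 - l) * c := by linarith
  have hl1' : 0 ≤ 1 - l := by linarith
  have hc0 : 0 < c := by
    by_contra h
    have : (1 - l) * c ≤ 0 := mul_nonpos_of_nonneg_of_nonpos hl1' (not_lt.1 h)
    linarith
  have hc2 : 1 / 2 < c := by
    have : (1 - l) * c ≤ 1 * c := mul_le_mul_of_nonneg_right (by linarith) hc0.le
    linarith
  have hl2' : 1 / 2 < 1 - l := by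
    have : (1 - l) * c ≤ (1 - l) * 1 := mul_le_mul_of_nonneg_left hcle hl1'
    linarith
  have hv2 : 2 < v := by
    by_contra h
    have : τ * v ≤ τ * 2 := mul_le_mul_of_nonneg_left (not_lt.1 h) hτ0.le
    linarith
  have hv0 : 0 < v := by linarith
  have hv4 : 4 ≤ v ^ 2 := by
    have := pow_le_pow_left₀ (by norm_num : (0 : ℝ) ≤ 2) hv2.le 2; norm_num at this; exact this
  have hK2 : K ≤ K ^ 2 := by
    have : K * 1 ≤ K * K := mul_le_mul_of_nonneg_left hK hK0.le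
    rw [sq]; linarith
  have h1K : 1 ≤ K ^ 2 := by linarith
  generalize hT : pT2 K u v ρ c d l l1 = T at *
  generalize hX : 7 * K * u ^ 8 = X at *
  have hX0 : 0 < X := by linarith
  have hΨ1 : X + l1 * v ^ 2 / 2 ≤ X + l1 * c * v ^ 2 := by
    have : l1 * (1 / 2) * v ^ 2 ≤ l1 * c * v ^ 2 := by
      apply mul_le_mul_of_nonneg_right _ (sq_nonneg _)
      exact mul_le_mul_of_nonneg_left hc2.le hl10
    linarith
  have hΨ2 : X ^ 2 + l1 ^ 2 * v ^ 4 / 4 ≤ (X + l1 * c * v ^ 2) ^ 2 := by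
    have h1 : (X + l1 * v ^ 2 / 2) ^ 2 ≤ (X + l1 * c * v ^ 2) ^ 2 :=
      pow_le_pow_left₀ (by positivity) hΨ1 2
    have h2 : 0 ≤ X * (l1 * v ^ 2) := by positivity
    have h3 : (X + l1 * v ^ 2 / 2) ^ 2 = X ^ 2 + X * (l1 * v ^ 2) + l1 ^ 2 * v ^ 4 / 4 := by ring
    linarith
  have hXT : X ^ 2 ≤ 68 * T := by
    have : 0 ≤ l1 ^ 2 * v ^ 4 / 4 := by positivity
    linarith
  have hlT : l1 ^ 2 * v ^ 4 ≤ 272 * T := by
    have : 0 ≤ X ^ 2 := sq_nonneg _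
    linarith
  have hdT : d ^ 2 * v ^ 4 ≤ 16 * T := by
    have h1 : 1 / 4 ≤ (1 - l) ^ 2 := by
      have := pow_le_pow_left₀ (by norm_num : (0 : ℝ) ≤ 1 / 2) hl2'.le 2
      norm_num at this ⊢; exact this
    have h2 : ((1 - l) * d * v ^ 2) ^ 2 = (1 - l) ^ 2 * (d ^ 2 * v ^ 4) := by ring
    have h3 : 1 / 4 * (d ^ 2 * v ^ 4) ≤ (1 - l) ^ 2 * (d ^ 2 * v ^ 4) :=
      mul_le_mul_of_nonneg_right h1 (by positivity)
    linarith
  have hKT : 70 * K ^ 2 ≤ T := by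
    have h1 : (69 * K) ^ 2 ≤ X ^ 2 := pow_le_pow_left₀ (by positivity) hXK 2
    have h3 : (69 * K) ^ 2 = 4761 * K ^ 2 := by ring
    linarith
  have hTpos : 0 < T := lt_of_lt_of_le (by positivity) hKT
  refine ⟨?_, hTpos⟩
  generalize hS : a ^ 2 + b ^ 2 = S at *
  have hL : (l1 ^ 2 + 17 * d ^ 2) * v ^ 4 ≤ 544 * T := by
    have : (l1 ^ 2 + 17 * d ^ 2) * v ^ 4 = l1 ^ 2 * v ^ 4 + 17 * (d ^ 2 * v ^ 4) := by ring
    rw [this]; linarith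
  have hLnn : 0 ≤ l1 ^ 2 + 17 * d ^ 2 := by positivity
  have hv34 : 2 * v ^ 3 ≤ v ^ 4 := by
    have : v ^ 4 = v * v ^ 3 := by ring
    rw [this]; exact mul_le_mul_of_nonneg_right hv2.le (by positivity)
  have hv24 : 4 * v ^ 2 ≤ v ^ 4 := by
    have : v ^ 4 = v ^ 2 * v ^ 2 := by ring
    rw [this]; exact mul_le_mul_of_nonneg_right hv4 (by positivity)
  have hA : 2 * ptau1 u ρ c d l l1 a b ^ 2 * v ^ 3 ≤ 1088 * T * S := by
    have h1 : 2 * ptau1 u ρ c d l l1 a b ^ 2 * v ^ 3 ≤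
        (2 * (l1 ^ 2 + 17 * d ^ 2) * S) * (2 * v ^ 3) := by
      have : 2 * ptau1 u ρ c d l l1 a b ^ 2 * v ^ 3 =
        ptau1 u ρ c d l l1 a b ^ 2 * (2 * v ^ 3) := by ring
      rw [this]
      exact mul_le_mul_of_nonneg_right htau1 (by positivity)
    have h2 : (2 * (l1 ^ 2 + 17 * d ^ 2) * S) * (2 * v ^ 3) ≤
        (2 * (l1 ^ 2 + 17 * d ^ 2) * S) * v ^ 4 :=
      mul_le_mul_of_nonneg_left hv34 (by positivity)
    have h3 : (2 * (l1 ^ 2 + 17 * d ^ 2) * S) * v ^ 4 =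
      ((l1 ^ 2 + 17 * d ^ 2) * v ^ 4) * (2 * S) := by ring
    have h4 : ((l1 ^ 2 + 17 * d ^ 2) * v ^ 4) * (2 * S) ≤ (544 * T) * (2 * S) :=
      mul_le_mul_of_nonneg_right hL (by positivity)
    linarith
  have hcr : 2 * (l1 * a) * (pth1 u ρ a b * d) * v ^ 2 ≤ 136 * T * S := by
    have h1 := (abs_le.1 hcross).2
    have h2 : 2 * (l1 * a) * (pth1 u ρ a b * d) * v ^ 2 ≤
        ((l1 ^ 2 + 17 * d ^ 2) * S) * v ^ 2 := mul_le_mul_of_nonneg_right h1 (sq_nonneg _)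
    have h3 : ((l1 ^ 2 + 17 * d ^ 2) * S) * (4 * v ^ 2) ≤ ((l1 ^ 2 + 17 * d ^ 2) * S) * v ^ 4 :=
      mul_le_mul_of_nonneg_left hv24 (by positivity)
    have h4 : ((l1 ^ 2 + 17 * d ^ 2) * S) * v ^ 4 = ((l1 ^ 2 + 17 * d ^ 2) * v ^ 4) * S := by ring
    have h5 : ((l1 ^ 2 + 17 * d ^ 2) * v ^ 4) * S ≤ 544 * T * S :=
      mul_le_mul_of_nonneg_right hL hS0
    linarith
  have hθd : -(169 * T * S) ≤ (1 - l) * (pth2 u ρ a b * d) * v ^ 2 := by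
    have h1 : |(1 - l) * (pth2 u ρ a b * d) * v ^ 2| ≤ (21 * S) * (|d| * v ^ 2) := by
      rw [abs_mul, abs_mul, abs_mul, abs_of_nonneg hl1', abs_of_nonneg (sq_nonneg v)]
      calc (1 - l) * (|pth2 u ρ a b| * |d|) * v ^ 2
          ≤ 1 * (|pth2 u ρ a b| * |d|) * v ^ 2 := by
            apply mul_le_mul_of_nonneg_right _ (sq_nonneg _)
            apply mul_le_mul_of_nonneg_right (by linarith) (by positivity)
        _ = |pth2 u ρ a b| * (|d| * v ^ 2) := by ring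
        _ ≤ _ := mul_le_mul_of_nonneg_right hθ2 (by positivity)
    have h2 : |d| * v ^ 2 ≤ (16 * T + T / 70) / 2 := by
      have h3 := two_mul_le_add_sq (|d| * v ^ 2) 1
      have h4 : (|d| * v ^ 2) ^ 2 = d ^ 2 * v ^ 4 := by
        rw [mul_pow, sq_abs]; ring
      rw [h4] at h3
      linarith
    have h5 : (21 * S) * (|d| * v ^ 2) ≤ (21 * S) * ((16 * T + T / 70) / 2) :=
      mul_le_mul_of_nonneg_left h2 (by positivity)
    have h6 := (abs_le.1 h1).1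
    have h7 : 0 ≤ T * S := by positivity
    linarith
  have hl2t : -(1 / g0 ^ 2 * T * S) ≤ l2 * a ^ 2 * c * v ^ 2 := by
    rcases lt_or_ge l2 0 with h | h
    · have h1 := hl2 h
      have hτg : g0 ≤ τ := by
        have : (1 - l) * c ≤ (1 - l) * 1 := mul_le_mul_of_nonneg_left hcle hl1'
        linarith
      have hvg : v ^ 2 ≤ 1 / g0 ^ 2 := by
        have h2 : g0 * v ≤ 1 := by
          rw [← hv]; exact mul_le_mul_of_nonneg_right hτg hv0.le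
        rw [le_div_iff₀ (by positivity)]
        have h3 : (g0 * v) ^ 2 ≤ 1 := pow_le_one₀ (by positivity) h2
        have h4 : (g0 * v) ^ 2 = v ^ 2 * g0 ^ 2 := by ring
        linarith
      have h4 := (abs_le.1 hl2b).1
      have h5 : -(K * S) * v ^ 2 ≤ l2 * a ^ 2 * c * v ^ 2 :=
        mul_le_mul_of_nonneg_right h4 (sq_nonneg _)
      have h6 : K * S * v ^ 2 ≤ (T * S) * (1 / g0 ^ 2) := by
        apply mul_le_mul _ hvg (sq_nonneg _) (by positivity)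
        apply mul_le_mul_of_nonneg_right _ hS0
        linarith
      linarith
    · have h1 : 0 ≤ l2 * a ^ 2 * c * v ^ 2 := by positivity
      have h2 : 0 ≤ 1 / g0 ^ 2 * T * S := by positivity
      linarith
  have hn1 : 0 ≤ l1 * (b ^ 2 * ρ) * c * v ^ 2 := by positivity
  have hn2 : 0 ≤ (1 - l) * (pth1 u ρ a b ^ 2 * c) * v ^ 2 := by positivity
  have hexp : ptau2 u ρ c d l l1 l2 a b * v ^ 2 = l2 * a ^ 2 * c * v ^ 2
      + l1 * (b ^ 2 * ρ) * c * v ^ 2 - 2 * (l1 * a) * (pth1 u ρ a b * d) * v ^ 2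
      + (1 - l) * (pth2 u ρ a b * d) * v ^ 2 + (1 - l) * (pth1 u ρ a b ^ 2 * c) * v ^ 2 := by
    rw [ptau2]; ring
  rw [pU2, hexp]
  have hD : 28672 * K * S ≤ 410 * T * S := by
    apply mul_le_mul_of_nonneg_right _ hS0; linarith
  have hG : (20000 + 1 / g0 ^ 2) * T * S = 20000 * T * S + 1 / g0 ^ 2 * T * S := by ring
  have h7 : 0 ≤ T * S := by positivity
  rw [hG]
  linarith

/-- region `1/2 ≤ t ≤ 3/4`. -/
theorem caseII {K B g0 u v ρ c d τ l l1 l2 a b : ℝ} (hK : 1 ≤ K) (hKB : B ≤ K)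
    (hg0 : 0 < g0)
    (hu : 4 / 3 ≤ u) (hu2 : u ≤ 2) (hρ : 1 / 2 ≤ ρ) (hρ1 : ρ ≤ 1)
    (hcd : c ^ 2 + d ^ 2 = 1) (hτ : τ = 1 - (1 - l) * c) (hτ0 : 0 < τ) (hv : τ * v = 1)
    (hl0 : 0 ≤ l) (hl1 : l ≤ 1) (hl10 : 0 ≤ l1) (hl1B : l1 ≤ B) (hl2B : |l2| ≤ B)
    (hl2 : l2 < 0 → g0 ≤ l) :
    -((20000 + 1 / g0 ^ 2) * pT2 K u v ρ c d l l1 * (a ^ 2 + b ^ 2))
      ≤ pU2 K u v ρ c d l l1 l2 a b ∧ 0 < pT2 K u v ρ c d l l1 := by
  rcases le_or_gt (1 / 2) τ with hcase | hcase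
  · have hv0 : 0 < v := by
      by_contra h
      have : τ * v ≤ 0 := mul_nonpos_of_nonneg_of_nonpos hτ0.le (not_lt.1 h)
      linarith
    obtain ⟨h1, h2⟩ := caseIIa (a := a) (b := b) hK hKB hu hu2 hρ hρ1 hcd hτ hv hl0 hl1 hl10 hl1B
      hl2B hcase hv0
    refine ⟨?_, h2⟩
    have h3 : 0 ≤ 1 / g0 ^ 2 * pT2 K u v ρ c d l l1 * (a ^ 2 + b ^ 2) := by positivity
    have h4 : (20000 + 1 / g0 ^ 2) * pT2 K u v ρ c d l l1 * (a ^ 2 + b ^ 2) =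
      20000 * pT2 K u v ρ c d l l1 * (a ^ 2 + b ^ 2) +
      1 / g0 ^ 2 * pT2 K u v ρ c d l l1 * (a ^ 2 + b ^ 2) := by ring
    rw [h4]
    linarith
  · exact caseIIb hK hKB hg0 hu hu2 hρ hρ1 hcd hτ hτ0 hv hl0 hl1 hl10 hl2B hl2 hcase

end Pool.Agent.Helper2.NC
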