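import Pool.Agent.Helper2.NC.SpLam

/-! Derivatives of the spiral potential along straight lines. -/

namespace Pool.Agent.Helper2.NC

open Pool.Agent.Helper79.NC Real Set Filter Topology

open scoped ContDiff

/-- radial component times `r` -/
def qq (z Y : ℂ) : ℝ := Y.re * z.re + Y.im * z.im
/-- angular component times `r` -/
def mm (z Y : ℂ) : ℝ := Y.im * z.re - Y.re * z.im
/-- radial component -/
noncomputable def y1 (z Y : ℂ) : ℝ := qq z Y / ‖z‖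
/-- angular component -/
noncomputable def y2 (z Y : ℂ) : ℝ := mm z Y / ‖z‖

theorem normSq_eq (z : ℂ) : ‖z‖ ^ 2 = z.re ^ 2 + z.im ^ 2 := by
  rw [Complex.sq_norm, Complex.normSq_apply]; ring

theorem y_sq (z Y : ℂ) (hz : 0 < ‖z‖) : y1 z Y ^ 2 + y2 z Y ^ 2 = Complex.normSq Y := by
  have h := normSq_eq z
  rw [y1, y2, Complex.normSq_apply, div_pow, div_pow, ← add_div, div_eq_iff (by positivity), h,
    qq, mm]
  ring

theorem hasDerivAt_re (w Y : ℂ) (s : ℝ) : HasDerivAt (fun s : ℝ => (w + s • Y).re) Y.re s := by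
  have : HasDerivAt (fun s : ℝ => w.re + s * Y.re) (1 * Y.re) s :=
    ((hasDerivAt_id' s).mul_const _).const_add _
  rw [one_mul] at this
  simpa using this

theorem hasDerivAt_im (w Y : ℂ) (s : ℝ) : HasDerivAt (fun s : ℝ => (w + s • Y).im) Y.im s := by
  have : HasDerivAt (fun s : ℝ => w.im + s * Y.im) (1 * Y.im) s :=
    ((hasDerivAt_id' s).mul_const _).const_add _
  rw [one_mul] at this
  simpa using this

theorem hasDerivAt_norm (w Y : ℂ) (s : ℝ) (h : 0 < ‖w + s • Y‖) :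
    HasDerivAt (fun s : ℝ => ‖w + s • Y‖) (y1 (w + s • Y) Y) s := by
  have h1 : HasDerivAt (fun s : ℝ => (w + s • Y).re ^ 2 + (w + s • Y).im ^ 2) _ s :=
    ((hasDerivAt_re w Y s).pow 2).add ((hasDerivAt_im w Y s).pow 2)
  have h2 := h1.sqrt (by
    have := normSq_eq (w + s • Y)
    have h3 : 0 < ‖w + s • Y‖ ^ 2 := by positivity
    rw [← this]
    exact h3.ne')
  have h4 : (fun s : ℝ => ‖w + s • Y‖) = fun s : ℝ => √((w + s • Y).re ^ 2 + (w + s • Y).im ^ 2) := by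
    ext u
    rw [← normSq_eq, Real.sqrt_sq (norm_nonneg _)]
  rw [h4]
  refine h2.congr_deriv ?_
  have h5 : √((w + s • Y).re ^ 2 + (w + s • Y).im ^ 2) = ‖w + s • Y‖ := by
    rw [← normSq_eq, Real.sqrt_sq (norm_nonneg _)]
  rw [h5, y1, qq]
  field_simp
  push_cast
  ring

theorem qq_hasDerivAt (w Y : ℂ) (s : ℝ) :
    HasDerivAt (fun s : ℝ => qq (w + s • Y) Y) (Y.re ^ 2 + Y.im ^ 2) s := by
  refine (((hasDerivAt_re w Y s).const_mul Y.re).add
    ((hasDerivAt_im w Y s).const_mul Y.im)).congr_deriv ?_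
  ring

theorem mm_hasDerivAt (w Y : ℂ) (s : ℝ) :
    HasDerivAt (fun s : ℝ => mm (w + s • Y) Y) 0 s := by
  refine (((hasDerivAt_re w Y s).const_mul Y.im).sub
    ((hasDerivAt_im w Y s).const_mul Y.re)).congr_deriv ?_
  ring

theorem Y_sq (z Y : ℂ) (hz : 0 < ‖z‖) : Y.re ^ 2 + Y.im ^ 2 = y1 z Y ^ 2 + y2 z Y ^ 2 := by
  rw [y_sq z Y hz, Complex.normSq_apply]; ring

theorem y1_hasDerivAt (w Y : ℂ) (s : ℝ) (h : 0 < ‖w + s • Y‖) :
    HasDerivAt (fun s : ℝ => y1 (w + s • Y) Y) (y2 (w + s • Y) Y ^ 2 / ‖w + s • Y‖) s := by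
  refine ((qq_hasDerivAt w Y s).div (hasDerivAt_norm w Y s h) h.ne').congr_deriv ?_
  rw [Y_sq _ Y h]
  have : qq (w + s • Y) Y = y1 (w + s • Y) Y * ‖w + s • Y‖ := by
    rw [y1]; field_simp
  rw [this]
  field_simp
  ring

/-- `cos Θ` -/
noncomputable def cc (z : ℂ) : ℝ := (spE z).re
/-- `sin Θ` -/
noncomputable def dd (z : ℂ) : ℝ := (spE z).im

theorem spE_eq (z : ℂ) : spE z =
    ⟨(z.re * cos (‖z‖ - 1)⁻¹ + z.im * sin (‖z‖ - 1)⁻¹) / ‖z‖,
     (z.im * cos (‖z‖ - 1)⁻¹ - z.re * sin (‖z‖ - 1)⁻¹) / ‖z‖⟩ := by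
  rw [spE]
  have e1 : Complex.exp (-(((1 / (‖z‖ - 1) : ℝ) : ℂ) * Complex.I)) =
      (⟨cos (‖z‖ - 1)⁻¹, - sin (‖z‖ - 1)⁻¹⟩ : ℂ) := by
    rw [← neg_mul, ← Complex.ofReal_neg, Complex.exp_mul_I, ← Complex.ofReal_cos,
      ← Complex.ofReal_sin, Real.cos_neg, Real.sin_neg, one_div]
    apply Complex.ext <;>
    simp only [Complex.add_re, Complex.add_im, Complex.mul_re, Complex.mul_im, Complex.I_re,
      Complex.I_im, Complex.ofReal_re, Complex.ofReal_im] <;> ring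
  rw [e1]
  apply Complex.ext
  · simp [Complex.mul_re]
    ring
  · simp [Complex.mul_im]
    ring

/-- unit vector, real part -/
noncomputable def xh (z : ℂ) : ℝ := z.re / ‖z‖
/-- unit vector, imaginary part -/
noncomputable def yh (z : ℂ) : ℝ := z.im / ‖z‖

theorem cc_eq (z : ℂ) : cc z = xh z * cos (‖z‖ - 1)⁻¹ + yh z * sin (‖z‖ - 1)⁻¹ := by
  rw [cc, spE_eq, xh, yh]; ring

theorem dd_eq (z : ℂ) : dd z = yh z * cos (‖z‖ - 1)⁻¹ - xh z * sin (‖z‖ - 1)⁻¹ := by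
  rw [dd, spE_eq, xh, yh]; ring

theorem xh_yh (z : ℂ) (h : 0 < ‖z‖) : xh z ^ 2 + yh z ^ 2 = 1 := by
  rw [xh, yh, div_pow, div_pow, ← add_div, ← normSq_eq, div_self (by positivity)]

theorem cc_dd (z : ℂ) (h : 0 < ‖z‖) : cc z ^ 2 + dd z ^ 2 = 1 := by
  rw [cc_eq, dd_eq]
  have := Real.sin_sq_add_cos_sq (‖z‖ - 1)⁻¹
  have e : (xh z * cos (‖z‖ - 1)⁻¹ + yh z * sin (‖z‖ - 1)⁻¹) ^ 2
      + (yh z * cos (‖z‖ - 1)⁻¹ - xh z * sin (‖z‖ - 1)⁻¹) ^ 2
      = (xh z ^ 2 + yh z ^ 2) * (sin (‖z‖ - 1)⁻¹ ^ 2 + cos (‖z‖ - 1)⁻¹ ^ 2) := by ring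
  rw [e, this, xh_yh z h]
  ring

/-- `Θ'` -/
noncomputable def th1 (z Y : ℂ) : ℝ := y2 z Y / ‖z‖ + y1 z Y / (‖z‖ - 1) ^ 2

/-- `Θ''` -/
noncomputable def th2 (z Y : ℂ) : ℝ :=
  -2 * y1 z Y * y2 z Y / ‖z‖ ^ 2 + y2 z Y ^ 2 / (‖z‖ * (‖z‖ - 1) ^ 2)
    - 2 * y1 z Y ^ 2 / (‖z‖ - 1) ^ 3

theorem inv_hasDerivAt (w Y : ℂ) (s : ℝ) (h : 1 < ‖w + s • Y‖) :
    HasDerivAt (fun s : ℝ => (‖w + s • Y‖ - 1)⁻¹)
      (- y1 (w + s • Y) Y / (‖w + s • Y‖ - 1) ^ 2) s := by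
  have h0 : 0 < ‖w + s • Y‖ := by linarith
  have h1 : 0 < ‖w + s • Y‖ - 1 := by linarith
  exact ((hasDerivAt_norm w Y s h0).sub_const 1).inv h1.ne'

theorem xh_hasDerivAt (w Y : ℂ) (s : ℝ) (h0 : 0 < ‖w + s • Y‖) :
    HasDerivAt (fun s : ℝ => xh (w + s • Y))
      (- yh (w + s • Y) * (y2 (w + s • Y) Y / ‖w + s • Y‖)) s := by
  refine ((hasDerivAt_re w Y s).div (hasDerivAt_norm w Y s h0) h0.ne').congr_deriv ?_
  have hn := normSq_eq (w + s • Y)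
  rw [y1, y2, yh, qq, mm]
  set z := w + s • Y
  field_simp
  rw [hn]
  ring

theorem yh_hasDerivAt (w Y : ℂ) (s : ℝ) (h0 : 0 < ‖w + s • Y‖) :
    HasDerivAt (fun s : ℝ => yh (w + s • Y))
      (xh (w + s • Y) * (y2 (w + s • Y) Y / ‖w + s • Y‖)) s := by
  refine ((hasDerivAt_im w Y s).div (hasDerivAt_norm w Y s h0) h0.ne').congr_deriv ?_
  have hn := normSq_eq (w + s • Y)
  rw [y1, y2, xh, qq, mm]
  set z := w + s • Y
  field_simp
  rw [hn]
  ring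

theorem cc_hasDerivAt (w Y : ℂ) (s : ℝ) (h : 1 < ‖w + s • Y‖) :
    HasDerivAt (fun s : ℝ => cc (w + s • Y))
      (- th1 (w + s • Y) Y * dd (w + s • Y)) s := by
  have h0 : 0 < ‖w + s • Y‖ := by linarith
  have hi := inv_hasDerivAt w Y s h
  have e := ((xh_hasDerivAt w Y s h0).mul hi.cos).add ((yh_hasDerivAt w Y s h0).mul hi.sin)
  have e2 : (fun s : ℝ => cc (w + s • Y)) = fun s : ℝ =>
      xh (w + s • Y) * cos (‖w + s • Y‖ - 1)⁻¹ + yh (w + s • Y) * sin (‖w + s • Y‖ - 1)⁻¹ := by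
    ext u; rw [cc_eq]
  rw [e2]
  refine e.congr_deriv ?_
  rw [dd_eq, th1]
  ring

theorem dd_hasDerivAt (w Y : ℂ) (s : ℝ) (h : 1 < ‖w + s • Y‖) :
    HasDerivAt (fun s : ℝ => dd (w + s • Y))
      (th1 (w + s • Y) Y * cc (w + s • Y)) s := by
  have h0 : 0 < ‖w + s • Y‖ := by linarith
  have hi := inv_hasDerivAt w Y s h
  have e := ((yh_hasDerivAt w Y s h0).mul hi.cos).sub ((xh_hasDerivAt w Y s h0).mul hi.sin)
  have e2 : (fun s : ℝ => dd (w + s • Y)) = fun s : ℝ =>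
      yh (w + s • Y) * cos (‖w + s • Y‖ - 1)⁻¹ - xh (w + s • Y) * sin (‖w + s • Y‖ - 1)⁻¹ := by
    ext u; rw [dd_eq]
  rw [e2]
  refine e.congr_deriv ?_
  rw [cc_eq, th1]
  ring

theorem y2_hasDerivAt (w Y : ℂ) (s : ℝ) (h : 0 < ‖w + s • Y‖) :
    HasDerivAt (fun s : ℝ => y2 (w + s • Y) Y)
      (- y1 (w + s • Y) Y * y2 (w + s • Y) Y / ‖w + s • Y‖) s := by
  refine ((mm_hasDerivAt w Y s).div (hasDerivAt_norm w Y s h) h.ne').congr_deriv ?_
  have : mm (w + s • Y) Y = y2 (w + s • Y) Y * ‖w + s • Y‖ := by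
    rw [y2]; field_simp
  rw [this]
  field_simp
  ring

theorem th1_hasDerivAt (w Y : ℂ) (s : ℝ) (h : 1 < ‖w + s • Y‖) :
    HasDerivAt (fun s : ℝ => th1 (w + s • Y) Y) (th2 (w + s • Y) Y) s := by
  have h0 : 0 < ‖w + s • Y‖ := by linarith
  have h1 : 0 < ‖w + s • Y‖ - 1 := by linarith
  have a := (y2_hasDerivAt w Y s h0).div (hasDerivAt_norm w Y s h0) h0.ne'
  have b := (y1_hasDerivAt w Y s h0).div (((hasDerivAt_norm w Y s h0).sub_const 1).pow 2)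
    (by simp only [Pi.pow_apply]; positivity)
  refine (a.add b).congr_deriv ?_
  simp only [Pi.pow_apply]
  rw [th2]
  field_simp
  ring

/-- `λ(t)`, `λ'(t)`, `λ''(t)` at `z` -/
noncomputable def la (z : ℂ) : ℝ := spLam (‖z‖ - 1)
/-- first derivative -/
noncomputable def la1 (z : ℂ) : ℝ := deriv spLam (‖z‖ - 1)
/-- second derivative -/
noncomputable def la2 (z : ℂ) : ℝ := deriv (deriv spLam) (‖z‖ - 1)

theorem la_hasDerivAt (w Y : ℂ) (s : ℝ) (h0 : 0 < ‖w + s • Y‖) :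
    HasDerivAt (fun s : ℝ => la (w + s • Y)) (la1 (w + s • Y) * y1 (w + s • Y) Y) s := by
  have h := (spLam_deriv (‖w + s • Y‖ - 1)).comp s ((hasDerivAt_norm w Y s h0).sub_const 1)
  rw [la1, (spLam_deriv _).deriv]
  exact h

theorem la1_hasDerivAt (w Y : ℂ) (s : ℝ) (h0 : 0 < ‖w + s • Y‖) :
    HasDerivAt (fun s : ℝ => la1 (w + s • Y)) (la2 (w + s • Y) * y1 (w + s • Y) Y) s := by
  have h := (spLam_deriv2 (‖w + s • Y‖ - 1)).comp s ((hasDerivAt_norm w Y s h0).sub_const 1)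
  rw [la2, (spLam_deriv2 _).deriv]
  exact h

/-- first derivative of `τ` along the line -/
noncomputable def tau1 (z Y : ℂ) : ℝ :=
  la1 z * y1 z Y * cc z + (1 - la z) * (th1 z Y * dd z)

/-- second derivative of `τ` along the line -/
noncomputable def tau2 (z Y : ℂ) : ℝ :=
  (la2 z * y1 z Y ^ 2 + la1 z * (y2 z Y ^ 2 / ‖z‖)) * cc z
    - 2 * (la1 z * y1 z Y) * (th1 z Y * dd z)
    + (1 - la z) * (th2 z Y * dd z + th1 z Y ^ 2 * cc z)

theorem tau_hasDerivAt (w Y : ℂ) (s : ℝ) (h : 1 < ‖w + s • Y‖) :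
    HasDerivAt (fun s : ℝ => spTau (w + s • Y)) (tau1 (w + s • Y) Y) s := by
  have h0 : 0 < ‖w + s • Y‖ := by linarith
  have e : HasDerivAt (fun s : ℝ => 1 - (1 - la (w + s • Y)) * cc (w + s • Y)) _ s :=
    (((la_hasDerivAt w Y s h0).const_sub 1).mul (cc_hasDerivAt w Y s h)).const_sub 1
  refine HasDerivAt.congr_deriv (f' := _) e ?_
  rw [tau1]
  ring

theorem tau1_hasDerivAt (w Y : ℂ) (s : ℝ) (h : 1 < ‖w + s • Y‖) :
    HasDerivAt (fun s : ℝ => tau1 (w + s • Y) Y) (tau2 (w + s • Y) Y) s := by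
  have h0 : 0 < ‖w + s • Y‖ := by linarith
  have a := ((la1_hasDerivAt w Y s h0).mul (y1_hasDerivAt w Y s h0)).mul (cc_hasDerivAt w Y s h)
  have b := ((la_hasDerivAt w Y s h0).const_sub 1).mul
    ((th1_hasDerivAt w Y s h).mul (dd_hasDerivAt w Y s h))
  refine (a.add b).congr_deriv ?_
  simp only [Pi.mul_apply]
  rw [tau2]
  ring

/-- derivative of `ψ₀` along the line -/
noncomputable def U1 (K : ℝ) (z Y : ℂ) : ℝ :=
  7 * K * y1 z Y / (‖z‖ - 1) ^ 8 + tau1 z Y / spTau z ^ 2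

/-- second derivative of `ψ₀` along the line -/
noncomputable def U2 (K : ℝ) (z Y : ℂ) : ℝ :=
  - 56 * K * y1 z Y ^ 2 / (‖z‖ - 1) ^ 9 + 7 * K * y2 z Y ^ 2 / (‖z‖ * (‖z‖ - 1) ^ 8)
    + tau2 z Y / spTau z ^ 2 - 2 * tau1 z Y ^ 2 / spTau z ^ 3

theorem U1_hasDerivAt (K : ℝ) (w Y : ℂ) (s : ℝ) (h : 1 < ‖w + s • Y‖)
    (hτ : 0 < spTau (w + s • Y)) :
    HasDerivAt (fun s : ℝ => U1 K (w + s • Y) Y) (U2 K (w + s • Y) Y) s := by
  have h0 : 0 < ‖w + s • Y‖ := by linarith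
  have h1 : 0 < ‖w + s • Y‖ - 1 := by linarith
  have a := ((y1_hasDerivAt w Y s h0).const_mul (7 * K)).div
    (((hasDerivAt_norm w Y s h0).sub_const 1).pow 8) (by simp only [Pi.pow_apply]; positivity)
  have b := (tau1_hasDerivAt w Y s h).div ((tau_hasDerivAt w Y s h).pow 2)
    (by simp only [Pi.pow_apply]; positivity)
  refine (a.add b).congr_deriv ?_
  simp only [Pi.pow_apply]
  rw [U2]
  field_simp
  ring

theorem spiral_eq {N K : ℝ} {z : ℂ} (h : 1 < ‖z‖) (hτ : 0 < spTau z) :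
    spiral N K z = exp (-(N * (K * ((‖z‖ - 1) ^ 7)⁻¹ + (spTau z)⁻¹))) := by
  rw [spiral, if_neg (not_le.2 h), if_neg (not_le.2 hτ)]

theorem spiral_nonneg (N K : ℝ) (z : ℂ) : 0 ≤ spiral N K z := by
  rw [spiral]; split_ifs
  · exact le_rfl
  · exact le_rfl
  · exact (Real.exp_pos _).le

theorem continuous_line (w Y : ℂ) : Continuous (fun s : ℝ => w + s • Y) := by fun_prop

theorem tau_continuousAt (w Y : ℂ) (s : ℝ) (h : 1 < ‖w + s • Y‖) :
    ContinuousAt (fun s : ℝ => spTau (w + s • Y)) s := (tau_hasDerivAt w Y s h).continuousAt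

theorem ev_good (w Y : ℂ) (s : ℝ) (h : 1 < ‖w + s • Y‖) (hτ : 0 < spTau (w + s • Y)) :
    ∀ᶠ u in 𝓝 s, 1 < ‖w + u • Y‖ ∧ 0 < spTau (w + u • Y) := by
  have h1 : ContinuousAt (fun s : ℝ => ‖w + s • Y‖) s := (continuous_line w Y).norm.continuousAt
  exact (h1.eventually_const_lt h).and ((tau_continuousAt w Y s h).eventually_const_lt hτ)

theorem spiral_hasDerivAt (N K : ℝ) (w Y : ℂ) (s : ℝ) (h : 1 < ‖w + s • Y‖)
    (hτ : 0 < spTau (w + s • Y)) :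
    HasDerivAt (fun s : ℝ => spiral N K (w + s • Y))
      (N * U1 K (w + s • Y) Y * spiral N K (w + s • Y)) s := by
  have h0 : 0 < ‖w + s • Y‖ := by linarith
  have h1 : 0 < ‖w + s • Y‖ - 1 := by linarith
  have a := ((((hasDerivAt_norm w Y s h0).sub_const 1).pow 7).inv
    (by simp only [Pi.pow_apply]; positivity)).const_mul K
  have b := (tau_hasDerivAt w Y s h).inv hτ.ne'
  have c := (((a.add b).const_mul N).neg).exp
  have hev : (fun s : ℝ => spiral N K (w + s • Y)) =ᶠ[𝓝 s] fun u : ℝ =>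
      exp (-(N * (K * ((‖w + u • Y‖ - 1) ^ 7)⁻¹ + (spTau (w + u • Y))⁻¹))) := by
    filter_upwards [ev_good w Y s h hτ] with u hu
    exact spiral_eq hu.1 hu.2
  refine (HasDerivAt.congr_of_eventuallyEq c hev).congr_deriv ?_
  simp only [Pi.pow_apply, Pi.add_apply, Pi.inv_apply, Pi.neg_apply]
  rw [spiral_eq h hτ, U1]
  field_simp
  ring

/-- second derivative of the potential -/
theorem second_deriv {N K : ℝ} (hS : ContDiff ℝ ∞ (spiral N K)) {w : ℂ} (h : 1 < ‖w‖)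
    (hτ : 0 < spTau w) (Y : ℂ) :
    fderiv ℝ (spiral N K) w Y = N * U1 K w Y * spiral N K w ∧
    fderiv ℝ (fderiv ℝ (spiral N K)) w Y Y =
      (N * U2 K w Y + (N * U1 K w Y) ^ 2) * spiral N K w := by
  have hline : ∀ s : ℝ, HasDerivAt (fun s : ℝ => w + s • Y) Y s := by
    intro s
    have : HasDerivAt (fun s : ℝ => w + s • Y) ((1 : ℝ) • Y) s :=
      ((hasDerivAt_id' s).smul_const Y).const_add w
    simpa using this
  have hd : Differentiable ℝ (spiral N K) := hS.differentiable (by norm_num)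
  have hd2 : Differentiable ℝ (fderiv ℝ (spiral N K)) := by
    have : ContDiff ℝ ∞ (fderiv ℝ (spiral N K)) := hS.fderiv_right (by norm_num)
    exact this.differentiable (by norm_num)
  have d1 : ∀ s : ℝ, HasDerivAt (fun s : ℝ => spiral N K (w + s • Y))
      (fderiv ℝ (spiral N K) (w + s • Y) Y) s := by
    intro s
    have e : HasFDerivAt (spiral N K) (fderiv ℝ (spiral N K) (w + s • Y)) (w + s • Y) :=
      (hd (w + s • Y)).hasFDerivAt
    exact HasFDerivAt.comp_hasDerivAt (f := fun s : ℝ => w + s • Y) s e (hline s)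
  have d2 : HasDerivAt (fun s : ℝ => fderiv ℝ (spiral N K) (w + s • Y) Y)
      (fderiv ℝ (fderiv ℝ (spiral N K)) (w + (0 : ℝ) • Y) Y Y) 0 := by
    have e1 : HasFDerivAt (fderiv ℝ (spiral N K)) (fderiv ℝ (fderiv ℝ (spiral N K))
        (w + (0 : ℝ) • Y)) (w + (0 : ℝ) • Y) := (hd2 (w + (0 : ℝ) • Y)).hasFDerivAt
    have e : HasDerivAt (fun s : ℝ => fderiv ℝ (spiral N K) (w + s • Y))
        (fderiv ℝ (fderiv ℝ (spiral N K)) (w + (0 : ℝ) • Y) Y) 0 :=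
      HasFDerivAt.comp_hasDerivAt (f := fun s : ℝ => w + s • Y) 0 e1 (hline 0)
    exact (e.clm_apply (hasDerivAt_const (0 : ℝ) Y)).congr_deriv (by simp)
  have hz : w + (0 : ℝ) • Y = w := by simp
  have h' : 1 < ‖w + (0 : ℝ) • Y‖ := by rw [hz]; exact h
  have hτ' : 0 < spTau (w + (0 : ℝ) • Y) := by rw [hz]; exact hτ
  have hev : (fun s : ℝ => fderiv ℝ (spiral N K) (w + s • Y) Y) =ᶠ[𝓝 0]
      fun s : ℝ => N * U1 K (w + s • Y) Y * spiral N K (w + s • Y) := by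
    filter_upwards [ev_good w Y 0 h' hτ'] with u hu
    exact (d1 u).unique (spiral_hasDerivAt N K w Y u hu.1 hu.2)
  constructor
  · have := hev.self_of_nhds
    simpa using this
  · have e := (((U1_hasDerivAt K w Y 0 h' hτ').const_mul N).mul
      (spiral_hasDerivAt N K w Y 0 h' hτ')).congr_of_eventuallyEq hev
    have e2 := d2.unique e
    rw [hz] at e2
    rw [e2]
    ring

end Pool.Agent.Helper2.NC
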