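import Pool.Agent.Helper79.NC.Spec

/-! Facts on the cut-off `spLam`. -/

namespace Pool.Agent.Helper2.NC

open Pool.Agent.Helper79.NC Real Set Filter Topology

open scoped ContDiff

/-- `P x = 1/x² + 1/(1-x)²`. -/
noncomputable def PP (x : ℝ) : ℝ := (x ^ 2)⁻¹ + ((1 - x) ^ 2)⁻¹

theorem st_eq {x : ℝ} (h0 : 0 < x) (h1 : x < 1) :
    smoothTransition x = (1 + exp (x⁻¹ - (1 - x)⁻¹))⁻¹ := by
  have h1' : 0 < 1 - x := by linarith
  rw [smoothTransition, expNegInvGlue, expNegInvGlue, if_neg (not_le.2 h0),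
    if_neg (not_le.2 h1')]
  have e1 : exp (x⁻¹ - (1 - x)⁻¹) = exp (-(1 - x)⁻¹) / exp (-x⁻¹) := by
    rw [← Real.exp_sub]; congr 1; ring
  rw [e1]
  have := Real.exp_pos (-x⁻¹)
  have := Real.exp_pos (-(1 - x)⁻¹)
  field_simp

theorem st_hasDerivAt {x : ℝ} (h0 : 0 < x) (h1 : x < 1) :
    HasDerivAt smoothTransition
      (PP x * smoothTransition x * (1 - smoothTransition x)) x := by
  have h1' : 0 < 1 - x := by linarith
  have hv : HasDerivAt (fun y : ℝ => y⁻¹ - (1 - y)⁻¹) (-PP x) x := by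
    have a := hasDerivAt_inv h0.ne'
    have b := ((hasDerivAt_id' x).const_sub 1).inv h1'.ne'
    refine (a.sub b).congr_deriv ?_
    simp only [PP]; field_simp; ring
  have hg : HasDerivAt (fun y : ℝ => (1 + exp (y⁻¹ - (1 - y)⁻¹))⁻¹)
      (-(exp (x⁻¹ - (1 - x)⁻¹) * (-PP x)) / (1 + exp (x⁻¹ - (1 - x)⁻¹)) ^ 2) x :=
    (hv.exp.const_add 1).inv (by positivity)
  have hev : smoothTransition =ᶠ[𝓝 x] (fun y : ℝ => (1 + exp (y⁻¹ - (1 - y)⁻¹))⁻¹) := by
    filter_upwards [Ioo_mem_nhds h0 h1] with y hy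
    exact st_eq hy.1 hy.2
  refine (hg.congr_of_eventuallyEq hev).congr_deriv ?_
  rw [st_eq h0 h1]
  have : 0 < exp (x⁻¹ - (1 - x)⁻¹) := Real.exp_pos _
  field_simp
  ring

theorem st_contDiff : ContDiff ℝ ∞ smoothTransition := smoothTransition.contDiff (n := ⊤)

theorem st_deriv_nonneg (x : ℝ) : 0 ≤ deriv smoothTransition x :=
  smoothTransition.monotone.deriv_nonneg

theorem PP_hasDerivAt {x : ℝ} (h0 : 0 < x) (h1 : x < 1) :
    HasDerivAt PP (-2 / x ^ 3 + 2 / (1 - x) ^ 3) x := by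
  have h1' : 0 < 1 - x := by linarith
  have a : HasDerivAt (fun y : ℝ => (y ^ 2)⁻¹) _ x := (hasDerivAt_pow 2 x).inv (by positivity)
  have b : HasDerivAt (fun y : ℝ => ((1 - y) ^ 2)⁻¹) _ x :=
    (((hasDerivAt_id' x).const_sub 1).pow 2).inv (by
      simp only [Pi.pow_apply]; positivity)
  refine (a.add b).congr_deriv ?_
  simp only [Pi.pow_apply]
  field_simp
  ring

theorem st_deriv2 {x : ℝ} (h0 : 0 < x) (h1 : x < 1 / 4) :
    0 ≤ deriv (deriv smoothTransition) x := by
  have hx1 : x < 1 := by linarith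
  have h1' : 0 < 1 - x := by linarith
  have hev : deriv smoothTransition =ᶠ[𝓝 x]
      (fun y => PP y * smoothTransition y * (1 - smoothTransition y)) := by
    filter_upwards [Ioo_mem_nhds h0 hx1] with y hy
    exact (st_hasDerivAt hy.1 hy.2).deriv
  have hg := st_hasDerivAt h0 hx1
  have hP := PP_hasDerivAt h0 hx1
  have h := (hP.mul hg).mul (hg.const_sub 1)
  have h2 : deriv (deriv smoothTransition) x = _ := (h.congr_of_eventuallyEq hev).deriv
  rw [h2]
  simp only [Pi.mul_apply]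
  set g := smoothTransition x with hgdef
  have hg0 : 0 ≤ g := smoothTransition.nonneg x
  have hg1 : g ≤ 1 / 4 := by
    rw [hgdef, st_eq h0 hx1]
    have e1 : (2 : ℝ) ≤ x⁻¹ - (1 - x)⁻¹ := by
      have : (4 : ℝ) ≤ x⁻¹ := by rw [← one_div, le_div_iff₀ h0]; linarith
      have : (1 - x)⁻¹ ≤ (2 : ℝ) := by rw [← one_div, div_le_iff₀ h1']; linarith
      linarith
    have e2 := Real.add_one_le_exp (x⁻¹ - (1 - x)⁻¹)
    rw [inv_le_comm₀ (by positivity) (by norm_num)]
    linarith
  have e3 : (-2 / x ^ 3 + 2 / (1 - x) ^ 3) + PP x ^ 2 * (1 - 2 * g) ≥ 0 := by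
    have a1 : 0 ≤ 2 / (1 - x) ^ 3 := by positivity
    have a2 : PP x ≥ (x ^ 2)⁻¹ := by
      have : 0 ≤ ((1 - x) ^ 2)⁻¹ := by positivity
      simp only [PP]; linarith
    have a3 : PP x ^ 2 ≥ 4 / x ^ 3 := by
      have b1 : ((x ^ 2)⁻¹) ^ 2 ≤ PP x ^ 2 := by
        apply pow_le_pow_left₀ (by positivity) a2
      have b2 : 4 / x ^ 3 ≤ ((x ^ 2)⁻¹) ^ 2 := by
        rw [← one_div, div_pow, one_pow, div_le_div_iff₀ (by positivity) (by positivity)]
        have : x ^ 3 * (1 - 4 * x) ≥ 0 := mul_nonneg (by positivity) (by linarith)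
        nlinarith
      linarith
    have a4 : PP x ^ 2 * (1 - 2 * g) ≥ 4 / x ^ 3 * (1 / 2) := by
      apply mul_le_mul a3 (by linarith) (by norm_num)
      positivity
    have a5 : -2 / x ^ 3 + 4 / x ^ 3 * (1 / 2) = 0 := by field_simp; ring
    linarith
  have e4 : (-2 / x ^ 3 + 2 / (1 - x) ^ 3) * g + PP x * (PP x * g * (1 - g)) = 
    (-2 / x ^ 3 + 2 / (1 - x) ^ 3) * g + PP x * (PP x * g * (1 - g)) := rfl
  have e5 : ((-2 / x ^ 3 + 2 / (1 - x) ^ 3) * g + PP x * (PP x * g * (1 - g))) * (1 - g)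
      + PP x * g * (-(PP x * g * (1 - g)))
      = g * (1 - g) * ((-2 / x ^ 3 + 2 / (1 - x) ^ 3) + PP x ^ 2 * (1 - 2 * g)) := by ring
  rw [e5]
  apply mul_nonneg (mul_nonneg hg0 (by linarith)) e3

theorem st_deriv_cont : Continuous (deriv smoothTransition) :=
  st_contDiff.continuous_deriv (by norm_num)

theorem st_deriv2_cont : Continuous (deriv (deriv smoothTransition)) := by
  have h : ContDiff ℝ ∞ (deriv smoothTransition) := by
    have := (contDiff_infty_iff_deriv.1 st_contDiff).2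
    exact this
  exact h.continuous_deriv (by norm_num)

theorem st_left {x : ℝ} (h : x < 0) :
    deriv smoothTransition x = 0 ∧ deriv (deriv smoothTransition) x = 0 := by
  have h1 : ∀ y : ℝ, y < 0 → deriv smoothTransition y = 0 := by
    intro y hy
    have hev : smoothTransition =ᶠ[𝓝 y] (fun _ => (0 : ℝ)) := by
      filter_upwards [Iio_mem_nhds hy] with z hz
      exact smoothTransition.zero_of_nonpos (le_of_lt hz)
    rw [hev.deriv_eq]; simp
  refine ⟨h1 x h, ?_⟩
  have hev : deriv smoothTransition =ᶠ[𝓝 x] (fun _ => (0 : ℝ)) := by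
    filter_upwards [Iio_mem_nhds h] with z hz
    exact h1 z hz
  rw [hev.deriv_eq]; simp

theorem st_right {x : ℝ} (h : 1 < x) :
    deriv smoothTransition x = 0 ∧ deriv (deriv smoothTransition) x = 0 := by
  have h1 : ∀ y : ℝ, 1 < y → deriv smoothTransition y = 0 := by
    intro y hy
    have hev : smoothTransition =ᶠ[𝓝 y] (fun _ => (1 : ℝ)) := by
      filter_upwards [Ioi_mem_nhds hy] with z hz
      exact smoothTransition.one_of_one_le (le_of_lt hz)
    rw [hev.deriv_eq]; simp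
  refine ⟨h1 x h, ?_⟩
  have hev : deriv smoothTransition =ᶠ[𝓝 x] (fun _ => (0 : ℝ)) := by
    filter_upwards [Ioi_mem_nhds h] with z hz
    exact h1 z hz
  rw [hev.deriv_eq]; simp

theorem st_bound : ∃ B : ℝ, 0 ≤ B ∧ ∀ x, |deriv smoothTransition x| ≤ B ∧
    |deriv (deriv smoothTransition) x| ≤ B := by
  obtain ⟨B1, h1⟩ := (isCompact_Icc (a := (0 : ℝ)) (b := 1)).exists_bound_of_continuousOn
    st_deriv_cont.continuousOn
  obtain ⟨B2, h2⟩ := (isCompact_Icc (a := (0 : ℝ)) (b := 1)).exists_bound_of_continuousOn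
    st_deriv2_cont.continuousOn
  refine ⟨max 0 (max B1 B2), le_max_left _ _, fun x => ?_⟩
  rcases lt_or_ge x 0 with hx | hx
  · rw [(st_left hx).1, (st_left hx).2]; simp
  rcases lt_or_ge 1 x with hx' | hx'
  · rw [(st_right hx').1, (st_right hx').2]; simp
  have a := h1 x ⟨hx, hx'⟩
  have b := h2 x ⟨hx, hx'⟩
  rw [Real.norm_eq_abs] at a b
  exact ⟨a.trans ((le_max_left _ _).trans (le_max_right _ _)),
    b.trans ((le_max_right _ _).trans (le_max_right _ _))⟩

theorem st_deriv2_zero_left {x : ℝ} (h : x ≤ 0) : 0 ≤ deriv (deriv smoothTransition) x := by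
  have hc : IsClosed {x : ℝ | 0 ≤ deriv (deriv smoothTransition) x} :=
    isClosed_le continuous_const st_deriv2_cont
  have hsub : Iio (0 : ℝ) ⊆ {x : ℝ | 0 ≤ deriv (deriv smoothTransition) x} := by
    intro y hy
    exact (st_left hy).2.ge
  have := closure_minimal hsub hc
  rw [closure_Iio] at this
  exact this h

theorem spLam_deriv (t : ℝ) : HasDerivAt spLam (4 * deriv smoothTransition (4 * t - 2)) t := by
  have h1 : HasDerivAt (fun t : ℝ => 4 * t - 2) 4 t := by
    simpa using ((hasDerivAt_id t).const_mul 4).sub_const 2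
  have h2 : HasDerivAt smoothTransition (deriv smoothTransition (4 * t - 2)) (4 * t - 2) :=
    (st_contDiff.differentiable (by norm_num) _).hasDerivAt
  have := h2.comp t h1
  rw [mul_comm]
  exact this

theorem spLam_deriv_eq : deriv spLam = fun t => 4 * deriv smoothTransition (4 * t - 2) := by
  ext t; exact (spLam_deriv t).deriv

theorem spLam_deriv2 (t : ℝ) :
    HasDerivAt (deriv spLam) (16 * deriv (deriv smoothTransition) (4 * t - 2)) t := by
  have h1 : HasDerivAt (fun t : ℝ => 4 * t - 2) 4 t := by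
    simpa using ((hasDerivAt_id t).const_mul 4).sub_const 2
  have h0 : ContDiff ℝ ∞ (deriv smoothTransition) := (contDiff_infty_iff_deriv.1 st_contDiff).2
  have h2 : HasDerivAt (deriv smoothTransition) (deriv (deriv smoothTransition) (4 * t - 2))
      (4 * t - 2) := (h0.differentiable (by norm_num) _).hasDerivAt
  have h3 := (h2.comp t h1).const_mul 4
  rw [spLam_deriv_eq]
  exact h3.congr_deriv (by ring)

/-- The facts on `spLam` which are used. -/
theorem spLam_facts : ∃ B g0 : ℝ, 0 ≤ B ∧ 0 < g0 ∧ ∀ t : ℝ,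
    0 ≤ spLam t ∧ spLam t ≤ 1 ∧ 0 ≤ deriv spLam t ∧ deriv spLam t ≤ B ∧
    |deriv (deriv spLam) t| ≤ B ∧ (deriv (deriv spLam) t < 0 → g0 ≤ spLam t) ∧
    (t < 1 / 2 → spLam t = 0 ∧ deriv spLam t = 0 ∧ deriv (deriv spLam) t = 0) ∧
    (3 / 4 < t → spLam t = 1 ∧ deriv spLam t = 0 ∧ deriv (deriv spLam) t = 0) := by
  obtain ⟨B, hB0, hB⟩ := st_bound
  refine ⟨16 * B, smoothTransition (1 / 4), by positivity,
    smoothTransition.pos_of_pos (by norm_num), fun t => ?_⟩
  have e1 : deriv spLam t = 4 * deriv smoothTransition (4 * t - 2) := (spLam_deriv t).deriv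
  have e2 : deriv (deriv spLam) t = 16 * deriv (deriv smoothTransition) (4 * t - 2) :=
    (spLam_deriv2 t).deriv
  have hb := hB (4 * t - 2)
  refine ⟨smoothTransition.nonneg _, smoothTransition.le_one _, ?_, ?_, ?_, ?_, ?_, ?_⟩
  · rw [e1]; have := st_deriv_nonneg (4 * t - 2); linarith
  · rw [e1]; have := (abs_le.1 hb.1).2; linarith
  · rw [e2, abs_mul]; rw [abs_of_pos (by norm_num : (0 : ℝ) < 16)]; linarith [hb.2]
  · intro h
    rw [e2] at h
    by_contra hcon
    have hx : 4 * t - 2 < 1 / 4 := by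
      by_contra hx
      exact hcon (smoothTransition.monotone (not_lt.1 hx))
    rcases le_or_gt (4 * t - 2) 0 with h0 | h0
    · have := st_deriv2_zero_left h0; linarith
    · have := st_deriv2 h0 hx; linarith
  · intro h
    have h' : 4 * t - 2 < 0 := by linarith
    refine ⟨smoothTransition.zero_of_nonpos h'.le, ?_, ?_⟩
    · rw [e1, (st_left h').1, mul_zero]
    · rw [e2, (st_left h').2, mul_zero]
  · intro h
    have h' : 1 < 4 * t - 2 := by linarith
    refine ⟨smoothTransition.one_of_one_le h'.le, ?_, ?_⟩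
    · rw [e1, (st_right h').1, mul_zero]
    · rw [e2, (st_right h').2, mul_zero]

end Pool.Agent.Helper2.NC
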