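import Pool.Agent.Helper2.NC.Line
import Pool.Agent.Helper2.NC.Ineq2

/-! Module S2: the log-criterion for the spiral potential. -/

set_option maxHeartbeats 4000000

namespace Pool.Agent.Helper2.NC

open Pool.Agent.Helper79.NC Real Set Filter Topology

open scoped ContDiff

theorem U2_eq (K : ℝ) (w Y : ℂ) :
    U2 K w Y = pU2 K (‖w‖ - 1)⁻¹ (spTau w)⁻¹ ‖w‖⁻¹ (cc w) (dd w) (la w) (la1 w) (la2 w)
      (y1 w Y) (y2 w Y) := by
  simp only [U2, pU2, tau1, ptau1, tau2, ptau2, th1, pth1, th2, pth2, div_eq_mul_inv, inv_pow,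
    mul_inv]

theorem U1_eq (K : ℝ) (w Y : ℂ) :
    U1 K w Y = pp1 K (‖w‖ - 1)⁻¹ (spTau w)⁻¹ (cc w) (dd w) (la w) (la1 w) * y1 w Y
      + pp2 (spTau w)⁻¹ ‖w‖⁻¹ (dd w) (la w) * y2 w Y := by
  simp only [U1, pp1, pp2, tau1, th1, div_eq_mul_inv, inv_pow]
  ring

theorem grad_eq (K : ℝ) (w : ℂ) (h : 0 < ‖w‖) :
    U1 K w 1 ^ 2 + U1 K w Complex.I ^ 2 =
      pT2 K (‖w‖ - 1)⁻¹ (spTau w)⁻¹ ‖w‖⁻¹ (cc w) (dd w) (la w) (la1 w) := by
  have hx := xh_yh w h
  rw [xh, yh] at hx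
  rw [U1_eq, U1_eq, pT2]
  have a1 : y1 w 1 = w.re / ‖w‖ := by simp [y1, qq]
  have a2 : y2 w 1 = - (w.im / ‖w‖) := by simp [y2, mm]; ring
  have a3 : y1 w Complex.I = w.im / ‖w‖ := by simp [y1, qq]
  have a4 : y2 w Complex.I = w.re / ‖w‖ := by simp [y2, mm]
  rw [a1, a2, a3, a4]
  generalize w.re / ‖w‖ = X at *
  generalize w.im / ‖w‖ = Z at *
  generalize pp1 K (‖w‖ - 1)⁻¹ (spTau w)⁻¹ (cc w) (dd w) (la w) (la1 w) = P
  generalize pp2 (spTau w)⁻¹ ‖w‖⁻¹ (dd w) (la w) = Q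
  linear_combination (P ^ 2 + Q ^ 2) * hx

/-- the key estimate -/
theorem key {K B g0 : ℝ} (hK : 1 ≤ K) (hKB : B ≤ K) (hg0 : 0 < g0)
    (hfacts : ∀ t : ℝ,
      0 ≤ spLam t ∧ spLam t ≤ 1 ∧ 0 ≤ deriv spLam t ∧ deriv spLam t ≤ B ∧
      |deriv (deriv spLam) t| ≤ B ∧ (deriv (deriv spLam) t < 0 → g0 ≤ spLam t) ∧
      (t < 1 / 2 → spLam t = 0 ∧ deriv spLam t = 0 ∧ deriv (deriv spLam) t = 0) ∧
      (3 / 4 < t → spLam t = 1 ∧ deriv spLam t = 0 ∧ deriv (deriv spLam) t = 0))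
    {w : ℂ} (hw : 1 < ‖w‖) (hw5 : ‖w‖ < 5) (hτ : 0 < spTau w) (Y : ℂ) :
    -((20000 + 1 / g0 ^ 2) * (U1 K w 1 ^ 2 + U1 K w Complex.I ^ 2) * Complex.normSq Y)
      ≤ U2 K w Y ∧ 0 < U1 K w 1 ^ 2 + U1 K w Complex.I ^ 2 := by
  have h0 : 0 < ‖w‖ := by linarith
  have ht : 0 < ‖w‖ - 1 := by linarith
  rw [grad_eq K w h0, U2_eq, ← y_sq w Y h0]
  have hcd := cc_dd w h0
  have hτe : spTau w = 1 - (1 - la w) * cc w := rfl
  have hv : spTau w * (spTau w)⁻¹ = 1 := mul_inv_cancel₀ hτ.ne'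
  have hρ1 : ‖w‖⁻¹ < 1 := inv_lt_one_of_one_lt₀ hw
  have hρ0 : 0 < ‖w‖⁻¹ := by positivity
  obtain ⟨f1, f2, f3, f4, f5, f6, f7, f8⟩ := hfacts (‖w‖ - 1)
  have hg : 0 < 1 / g0 ^ 2 := by positivity
  rcases lt_or_ge (‖w‖ - 1) (1 / 2) with hc | hc
  · obtain ⟨e1, e2, e3⟩ := f7 hc
    have l0 : la w = 0 := e1
    have l1 : la1 w = 0 := e2
    have l2 : la2 w = 0 := e3
    rw [l0, l1, l2]
    have hu : 2 < (‖w‖ - 1)⁻¹ := by
      rw [lt_inv_comm₀ (by norm_num) ht]; norm_num; linarith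
    have hρ : 2 / 3 < ‖w‖⁻¹ := by
      rw [lt_inv_comm₀ (by norm_num) h0]; norm_num; linarith
    obtain ⟨g1, g2⟩ := caseI (a := y1 w Y) (b := y2 w Y) hK hu hρ hρ1 hcd
      (by rw [hτe, l0]; ring) hτ hv
    refine ⟨?_, g2⟩
    refine le_trans ?_ g1
    rw [neg_le_neg_iff]
    apply mul_le_mul_of_nonneg_right _ (by positivity)
    apply mul_le_mul_of_nonneg_right _ g2.le
    linarith
  rcases lt_or_ge (3 / 4) (‖w‖ - 1) with hc' | hc'
  · obtain ⟨e1, e2, e3⟩ := f8 hc'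
    have l0 : la w = 1 := e1
    have l1 : la1 w = 0 := e2
    have l2 : la2 w = 0 := e3
    have hτ1 : spTau w = 1 := by rw [hτe, l0]; ring
    rw [l0, l1, l2, hτ1, inv_one]
    have hu : 1 / 4 ≤ (‖w‖ - 1)⁻¹ := by
      rw [one_div, inv_le_inv₀ (by norm_num) ht]; linarith
    obtain ⟨g1, g2⟩ := caseIII (c := cc w) (d := dd w) (a := y1 w Y) (b := y2 w Y) hK hu hρ0
    refine ⟨?_, g2⟩
    refine le_trans ?_ g1
    rw [neg_le_neg_iff]
    apply mul_le_mul_of_nonneg_right _ (by positivity)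
    apply mul_le_mul_of_nonneg_right _ g2.le
    linarith
  · have hu : 4 / 3 ≤ (‖w‖ - 1)⁻¹ := by
      rw [le_inv_comm₀ (by norm_num) ht]; norm_num; linarith
    have hu2 : (‖w‖ - 1)⁻¹ ≤ 2 := by
      rw [inv_le_comm₀ ht (by norm_num)]; norm_num; linarith
    have hρ : 1 / 2 ≤ ‖w‖⁻¹ := by
      rw [le_inv_comm₀ (by norm_num) h0]; norm_num; linarith
    exact caseII hK hKB hg0 hu hu2 hρ hρ1.le hcd hτe hτ hv f1 f2 f3 f4 f5 f6

/-- Module S2. -/
theorem spiralCriterion (hS : SpiralSmooth) : SpiralCriterion := by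
  obtain ⟨B, g0, hB0, hg0, hfacts⟩ := spLam_facts
  have hK : (1 : ℝ) ≤ max 1 B := le_max_left _ _
  have hKB : B ≤ max 1 B := le_max_right _ _
  generalize max 1 B = K at hK hKB
  have hK0 : 0 < K := by linarith
  refine ⟨K, hK0, fun δ hδ => ?_⟩
  set M : ℝ := 20000 + 1 / g0 ^ 2 with hM
  have hM0 : 0 < M := by positivity
  refine ⟨M / δ, by positivity, fun N hN w hw5 => ?_⟩
  have hN0 : 0 < N := lt_of_lt_of_le (by positivity) hN
  have hMN : M ≤ δ * N := by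
    rw [div_le_iff₀ hδ] at hN; linarith
  have hΦ := hS N K hN0 hK0
  by_cases hz : spiral N K w = 0
  · have hmin : IsLocalMin (spiral N K) w := by
      filter_upwards with z
      rw [hz]; exact spiral_nonneg N K z
    have hfd : fderiv ℝ (spiral N K) w = 0 := hmin.fderiv_eq_zero
    refine ⟨fun X => ?_, fun _ => hz⟩
    simp [gradSq, hfd, hz]
  · have hw : 1 < ‖w‖ := by
      by_contra h
      exact hz (by rw [spiral, if_pos (not_lt.1 h)])
    have hτ : 0 < spTau w := by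
      by_contra h
      exact hz (by rw [spiral, if_neg (not_le.2 hw), if_pos (not_lt.1 h)])
    have hpos : 0 < spiral N K w := lt_of_le_of_ne (spiral_nonneg N K w) (Ne.symm hz)
    have hgrad : gradSq (spiral N K) w =
        N ^ 2 * spiral N K w ^ 2 * (U1 K w 1 ^ 2 + U1 K w Complex.I ^ 2) := by
      rw [gradSq, (second_deriv hΦ hw hτ 1).1, (second_deriv hΦ hw hτ Complex.I).1]
      ring
    constructor
    · intro X
      obtain ⟨h1, h2⟩ := second_deriv hΦ hw hτ X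
      obtain ⟨h3, h4⟩ := key hK hKB hg0 hfacts hw hw5 hτ X
      rw [h1, h2, hgrad]
      rw [← hM] at h3
      generalize U1 K w 1 ^ 2 + U1 K w Complex.I ^ 2 = T at *
      generalize spiral N K w = Φ at *
      generalize U1 K w X = u1 at *
      generalize U2 K w X = u2 at *
      have hn : 0 ≤ Complex.normSq X := Complex.normSq_nonneg X
      generalize Complex.normSq X = S at *
      have h5 : M * T * S ≤ δ * N * T * S := by
        apply mul_le_mul_of_nonneg_right _ hn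
        exact mul_le_mul_of_nonneg_right hMN h4.le
      have h6 : -(δ * N * T * S) ≤ u2 := by linarith
      have h7 : N * Φ ^ 2 * (-(δ * N * T * S)) ≤ N * Φ ^ 2 * u2 :=
        mul_le_mul_of_nonneg_left h6 (by positivity)
      have e1 : (N * u1 * Φ) ^ 2 - δ * (N ^ 2 * Φ ^ 2 * T) * S =
        (N * u1 * Φ) ^ 2 + N * Φ ^ 2 * (-(δ * N * T * S)) := by ring
      have e2 : Φ * ((N * u2 + (N * u1) ^ 2) * Φ) = (N * u1 * Φ) ^ 2 + N * Φ ^ 2 * u2 := by ring
      rw [e1, e2]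
      linarith
    · intro hfd
      exfalso
      obtain ⟨_, h4⟩ := key hK hKB hg0 hfacts hw hw5 hτ 1
      have a1 := (second_deriv hΦ hw hτ 1).1
      have a2 := (second_deriv hΦ hw hτ Complex.I).1
      rw [hfd] at a1 a2
      simp only [zero_apply] at a1 a2
      have b1 : U1 K w 1 = 0 := by
        rcases mul_eq_zero.1 a1.symm with h | h
        · exact (mul_eq_zero.1 h).resolve_left hN0.ne'
        · exact absurd h hz
      have b2 : U1 K w Complex.I = 0 := by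
        rcases mul_eq_zero.1 a2.symm with h | h
        · exact (mul_eq_zero.1 h).resolve_left hN0.ne'
        · exact absurd h hz
      rw [b1, b2] at h4
      norm_num at h4

end Pool.Agent.Helper2.NC

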